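import Mathlib

/-!
# Hook lengths, cores and the two classical types of zeros
-/

set_option autoImplicit false

namespace MP024b77

/-- The parts of `lam` in weakly decreasing order, rows numbered `0, 1, 2, …`; the value is `0`
beyond the last row. -/
def row {n : ℕ} (lam : n.Partition) (i : ℕ) : ℕ := (lam.parts.sort (· ≥ ·)).getD i 0

/-- Hook length of the cell in row `i` (rows numbered from `0`) and column `j` (columns numbered
from `1`): the arm `row i - j`, plus the number of rows `s ≥ i` reaching column `j`. -/
noncomputable def hook {n : ℕ} (lam : n.Partition) (i j : ℕ) : ℕ :=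
  (row lam i - j) + {s : ℕ | i ≤ s ∧ j ≤ row lam s}.ncard

/-- `lam` is a `t`-core: no hook length is divisible by `t`. -/
def IsCore {n : ℕ} (t : ℕ) (lam : n.Partition) : Prop :=
  ∀ i j : ℕ, 1 ≤ j → j ≤ row lam i → ¬ t ∣ hook lam i j

open scoped Classical in
/-- Zeros of type I: pairs `(lam, mu)` with `lam` a `mu_1`-core, `mu_1` the largest part. -/
noncomputable def zerosI (n : ℕ) : Finset (n.Partition × n.Partition) :=
  Finset.univ.filter fun p => IsCore (row p.2 0) p.1

open scoped Classical in
/-- Zeros of type II: pairs `(lam, mu)` with `lam` a `t`-core for some part `t` of `mu`. -/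
noncomputable def zerosII (n : ℕ) : Finset (n.Partition × n.Partition) :=
  Finset.univ.filter fun p => ∃ t ∈ p.2.parts, IsCore t p.1

/-- Density of the zeros of type I. -/
noncomputable def zI (n : ℕ) : ℝ := ((zerosI n).card : ℝ) / (Fintype.card n.Partition : ℝ) ^ 2

/-- Density of the zeros of type II. -/
noncomputable def zII (n : ℕ) : ℝ := ((zerosII n).card : ℝ) / (Fintype.card n.Partition : ℝ) ^ 2

end MP024b77
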