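import Mathlib
import Pool.Agent.Lib.MP_024b77_al.Defs

/-!
# Pushing beads: an injection from `t`-cores of `n` and multisets of `w` residues to partitions of
`n + w t`
-/

set_option autoImplicit false

namespace MP024b77

open Finset

section rows

variable {n : ℕ} (lam : n.Partition)

lemma sort_sorted : (lam.parts.sort (· ≥ ·)).Pairwise (· ≥ ·) := Multiset.pairwise_sort _ _

lemma row_anti {i j : ℕ} (h : i ≤ j) : row lam j ≤ row lam i := by
  unfold row
  set l := lam.parts.sort (· ≥ ·) with hl
  have hs : l.Pairwise (· ≥ ·) := sort_sorted lam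
  rcases lt_or_ge j l.length with hj | hj
  · rw [List.getD_eq_getElem _ _ hj, List.getD_eq_getElem _ _ (lt_of_le_of_lt h hj)]
    rcases eq_or_lt_of_le h with rfl | hlt
    · exact le_rfl
    · exact (List.pairwise_iff_getElem.mp hs) i j _ _ hlt
  · rw [List.getD_eq_default _ _ hj]; exact Nat.zero_le _

lemma length_le : (lam.parts.sort (· ≥ ·)).length ≤ n := by
  rw [Multiset.length_sort]
  have h : lam.parts.card • 1 ≤ lam.parts.sum :=
    Multiset.card_nsmul_le_sum fun x hx => lam.parts_pos hx
  rw [lam.parts_sum] at h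
  simpa using h

lemma row_eq_zero {i : ℕ} (h : n ≤ i) : row lam i = 0 := by
  unfold row
  exact List.getD_eq_default _ _ ((length_le lam).trans h)

/-- The nonzero rows are the parts. -/
lemma filter_rows {L : ℕ} (hL : n ≤ L) :
    (((Multiset.range L).map (row lam)).filter (· ≠ 0)) = lam.parts := by
  set l := lam.parts.sort (· ≥ ·) with hl
  have hlen : l.length ≤ L := (length_le lam).trans hL
  have h1 : (List.range L).map (row lam) = l ++ List.replicate (L - l.length) 0 := by
    apply List.ext_getElem
    · simp; omega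
    · intro i h1 h2
      simp only [List.getElem_map, List.getElem_range]
      rcases lt_or_ge i l.length with hi | hi
      · rw [List.getElem_append_left hi]
        unfold row
        rw [← hl, List.getD_eq_getElem _ _ hi]
      · rw [List.getElem_append_right hi, List.getElem_replicate]
        unfold row
        rw [← hl, List.getD_eq_default _ _ hi]
  have h2 : (Multiset.range L).map (row lam) = ((List.range L).map (row lam) : List ℕ) := rfl
  rw [h2, h1, ← Multiset.coe_add, Multiset.filter_add]
  have h3 : Multiset.filter (· ≠ 0) (l : Multiset ℕ) = (l : Multiset ℕ) := by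
    rw [Multiset.filter_eq_self]
    intro x hx
    have : x ∈ lam.parts := by
      rw [hl, Multiset.sort_eq] at hx; exact hx
    exact (lam.parts_pos this).ne'
  rw [h3]
  have h4 : Multiset.filter (· ≠ 0) ((List.replicate (L - l.length) 0 : List ℕ) : Multiset ℕ) = 0 := by
    rw [Multiset.filter_eq_nil]
    intro x hx
    rw [Multiset.mem_coe] at hx
    simpa using (List.eq_of_mem_replicate hx)
  rw [h4, add_zero, hl, Multiset.sort_eq]

lemma sum_rows {L : ℕ} (hL : n ≤ L) : ∑ i ∈ range L, row lam i = n := by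
  have h1 : ∑ i ∈ range L, row lam i = ((Multiset.range L).map (row lam)).sum := rfl
  rw [h1]
  have h2 := Multiset.filter_add_not (· ≠ 0) ((Multiset.range L).map (row lam))
  rw [← h2, Multiset.sum_add, filter_rows lam hL, lam.parts_sum]
  have h3 : (Multiset.filter (fun a => ¬ a ≠ 0) ((Multiset.range L).map (row lam))).sum = 0 := by
    apply Multiset.sum_eq_zero
    intro x hx
    have := (Multiset.mem_filter.mp hx).2
    push Not at this
    exact this
  rw [h3, add_zero]

lemma eq_of_rows {lam' : n.Partition} (h : ∀ i, row lam i = row lam' i) : lam = lam' := by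
  apply Nat.Partition.ext
  rw [← filter_rows lam le_rfl, ← filter_rows lam' le_rfl]
  have : row lam = row lam' := funext h
  rw [this]

end rows

section beads

variable {n : ℕ} (lam : n.Partition) (L : ℕ)

/-- Bead positions. -/
def bead (i : ℕ) : ℕ := row lam (L - 1 - i) + i

/-- The bead set with `L` beads. -/
def beads : Finset ℕ := (range L).image (bead lam L)

lemma bead_lt {i j : ℕ} (hij : i < j) : bead lam L i < bead lam L j := by
  unfold bead
  have := row_anti lam (show L - 1 - j ≤ L - 1 - i by omega)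
  omega

lemma bead_inj {i j : ℕ} (h : bead lam L i = bead lam L j) : i = j := by
  rcases lt_trichotomy i j with h1 | h1 | h1
  · exact absurd h (bead_lt lam L h1).ne
  · exact h1
  · exact absurd h (bead_lt lam L h1).ne'

lemma card_beads : (beads lam L).card = L := by
  unfold beads
  rw [Finset.card_image_of_injective _ (fun i j h => bead_inj lam L h), Finset.card_range]

lemma sum_beads (hL : n ≤ L) : ∑ b ∈ beads lam L, b = n + ∑ i ∈ range L, i := by
  unfold beads
  rw [Finset.sum_image (fun i _ j _ h => bead_inj lam L h)]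
  unfold bead
  rw [Finset.sum_add_distrib, Finset.sum_range_reflect (fun i => row lam i) L, sum_rows lam hL]

lemma mem_beads_of_lt (t : ℕ) (hL : n + t ≤ L) {r : ℕ} (hr : r < t) : r ∈ beads lam L := by
  unfold beads
  rw [Finset.mem_image]
  refine ⟨r, Finset.mem_range.mpr (by omega), ?_⟩
  unfold bead
  rw [row_eq_zero lam (by omega)]
  omega

/-- If `b` is a bead and `b - t` is not, then `t` is a hook length. -/
lemma exists_hook (hL : n ≤ L) {b t : ℕ} (hb : b ∈ beads lam L) (htb : t ≤ b) (ht : 1 ≤ t)
    (hbt : b - t ∉ beads lam L) : ∃ i j, 1 ≤ j ∧ j ≤ row lam i ∧ hook lam i j = t := by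
  unfold beads at hb
  rw [Finset.mem_image] at hb
  obtain ⟨i₀, hi₀, rfl⟩ := hb
  rw [Finset.mem_range] at hi₀
  set g := bead lam L i₀ - t with hg
  have hex : ∃ i, g < bead lam L i := ⟨i₀, by omega⟩
  classical
  set r := Nat.find hex with hr
  have hr1 : g < bead lam L r := Nat.find_spec hex
  have hr2 : ∀ i, i < r → bead lam L i < g := by
    intro i hi
    have h1 := Nat.find_min hex hi
    rcases lt_trichotomy (bead lam L i) g with h | h | h
    · exact h
    · exfalso
      apply hbt
      unfold beads
      rw [Finset.mem_image]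
      have : r ≤ i₀ := Nat.find_min' hex (by omega)
      exact ⟨i, Finset.mem_range.mpr (by omega), h⟩
    · exact absurd h h1
  have hri : r ≤ i₀ := Nat.find_min' hex (by omega)
  -- r ≤ g
  have hrg : r ≤ g := by
    rcases Nat.eq_zero_or_pos r with h | h
    · omega
    · have h1 := hr2 (r - 1) (by omega)
      unfold bead at h1
      omega
  have hrow_ge : ∀ i, r ≤ i → i < L → g + 1 - r ≤ row lam (L - 1 - i) := by
    intro i hi hiL
    have h1 := row_anti lam (show L - 1 - i ≤ L - 1 - r by omega)
    unfold bead at hr1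
    omega
  have hrow_lt : ∀ s, L - r ≤ s → row lam s < g + 1 - r := by
    intro s hs
    rcases Nat.eq_zero_or_pos r with h | h
    · rw [row_eq_zero lam (by omega)]; omega
    · have h1 := hr2 (r - 1) (by omega)
      unfold bead at h1
      have h2 := row_anti lam (show L - 1 - (r - 1) ≤ s by omega)
      omega
  refine ⟨L - 1 - i₀, g + 1 - r, by omega, hrow_ge i₀ hri hi₀, ?_⟩
  unfold hook
  have hset : {s : ℕ | L - 1 - i₀ ≤ s ∧ g + 1 - r ≤ row lam s} =
      ((Finset.Ico (L - 1 - i₀) (L - r) : Finset ℕ) : Set ℕ) := by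
    ext s
    simp only [Set.mem_ofPred_eq, Finset.coe_Ico, Set.mem_Ico]
    constructor
    · rintro ⟨h1, h2⟩
      refine ⟨h1, ?_⟩
      by_contra h3
      push Not at h3
      have := hrow_lt s h3
      omega
    · rintro ⟨h1, h2⟩
      refine ⟨h1, ?_⟩
      have h3 := hrow_ge (L - 1 - s) (by omega) (by omega)
      rwa [show L - 1 - (L - 1 - s) = s by omega] at h3
  rw [hset, Set.ncard_coe_finset, Nat.card_Ico]
  have h4 := hrow_ge i₀ hri hi₀
  have h5 : bead lam L i₀ = row lam (L - 1 - i₀) + i₀ := rfl
  omega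

lemma core_closed (hL : n ≤ L) {t : ℕ} (ht : 1 ≤ t) (hc : IsCore t lam) {b : ℕ}
    (hb : b + t ∈ beads lam L) : b ∈ beads lam L := by
  by_contra h
  obtain ⟨i, j, hj, hji, hh⟩ := exists_hook lam L hL hb (by omega) ht (by simpa using h)
  exact hc i j hj hji (by rw [hh])

end beads

section sets

lemma fin_le_of_strictMono {L : ℕ} {f : Fin L → ℕ} (hf : StrictMono f) (i : Fin L) :
    (i : ℕ) ≤ f i := by
  obtain ⟨i, hi⟩ := i
  induction i with
  | zero => exact Nat.zero_le _
  | succ i ih =>
    have h1 := ih (by omega)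
    have h2 := hf (show (⟨i, by omega⟩ : Fin L) < ⟨i + 1, hi⟩ by simp [Fin.lt_def])
    simp only at h1 ⊢
    omega

/-- Partition attached to a set of `L` beads. -/
noncomputable def partOf {m L : ℕ} (B : Finset ℕ) (hB : B.card = L)
    (hs : ∑ b ∈ B, b = m + ∑ i ∈ range L, i) : m.Partition :=
  Nat.Partition.ofSums m ((Finset.univ : Finset (Fin L)).val.map
    fun i => B.orderEmbOfFin hB i - i) (by
      have h1 : ∀ i : Fin L, (i : ℕ) ≤ B.orderEmbOfFin hB i := by
        intro i
        have : StrictMono (fun i : Fin L => (B.orderEmbOfFin hB i : ℕ)) :=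
          (B.orderEmbOfFin hB).strictMono
        exact fin_le_of_strictMono this i
      have h2 : ∑ i : Fin L, (B.orderEmbOfFin hB i - (i : ℕ)) + ∑ i : Fin L, (i : ℕ) =
          ∑ b ∈ B, b := by
        rw [← Finset.sum_add_distrib]
        rw [Finset.sum_congr rfl fun i _ => Nat.sub_add_cancel (h1 i)]
        conv_rhs => rw [← Finset.image_orderEmbOfFin_univ B hB]
        rw [Finset.sum_image (fun i _ j _ h => (B.orderEmbOfFin hB).injective h)]
      rw [Fin.sum_univ_eq_sum_range (fun i => i) L, hs] at h2
      have h3 : ((Finset.univ : Finset (Fin L)).val.map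
        fun i => B.orderEmbOfFin hB i - (i : ℕ)).sum =
        ∑ i : Fin L, (B.orderEmbOfFin hB i - (i : ℕ)) := rfl
      rw [h3]; omega)

lemma mono_sub {L : ℕ} {f : Fin L → ℕ} (hf : StrictMono f) :
    Monotone fun i : Fin L => f i - (i : ℕ) := by
  have h : ∀ (k : ℕ) (i : ℕ) (hi : i < L) (hk : i + k < L), f ⟨i, hi⟩ + k ≤ f ⟨i + k, hk⟩ := by
    intro k
    induction k with
    | zero => intro i hi hk; simp
    | succ k ih =>
      intro i hi hk
      have h1 := ih i hi (by omega)
      have h2 := hf (show (⟨i + k, by omega⟩ : Fin L) < ⟨i + (k + 1), hk⟩ by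
        simp only [Fin.lt_def]; omega)
      omega
  rintro ⟨i, hi⟩ ⟨j, hj⟩ hij
  rw [Fin.mk_le_mk] at hij
  obtain ⟨k, rfl⟩ := Nat.exists_eq_add_of_le hij
  have h1 := h k i hi hj
  simp only
  omega

lemma eq_of_filter_eq {L : ℕ} {f f' : Fin L → ℕ} (hf : Monotone f) (hf' : Monotone f')
    (h : ((Finset.univ : Finset (Fin L)).val.map f).filter (· ≠ 0) =
      ((Finset.univ : Finset (Fin L)).val.map f').filter (· ≠ 0)) : f = f' := by
  have key : ∀ g : Fin L → ℕ, (Finset.univ : Finset (Fin L)).val.map g =
      ((Finset.univ : Finset (Fin L)).val.map g).filter (· ≠ 0) +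
      Multiset.replicate (L - (((Finset.univ : Finset (Fin L)).val.map g).filter (· ≠ 0)).card) 0 := by
    intro g
    have h1 := Multiset.filter_add_not (· ≠ 0) ((Finset.univ : Finset (Fin L)).val.map g)
    have h2 : Multiset.filter (fun a => ¬ a ≠ 0) ((Finset.univ : Finset (Fin L)).val.map g) =
        Multiset.replicate (Multiset.filter (fun a => ¬ a ≠ 0)
          ((Finset.univ : Finset (Fin L)).val.map g)).card 0 := by
      rw [Multiset.eq_replicate]
      refine ⟨rfl, fun b hb => ?_⟩
      have := (Multiset.mem_filter.mp hb).2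
      push Not at this
      exact this
    have h3 := congrArg Multiset.card h1
    rw [Multiset.card_add, Multiset.card_map, Finset.card_val, Finset.card_univ, Fintype.card_fin]
      at h3
    conv_lhs => rw [← h1, h2]
    congr 2
    omega
  have hm : (Finset.univ : Finset (Fin L)).val.map f = (Finset.univ : Finset (Fin L)).val.map f' := by
    rw [key f, key f', h]
  have e : ∀ g : Fin L → ℕ, (Finset.univ : Finset (Fin L)).val.map g = (List.ofFn g : List ℕ) := by
    intro g
    rw [List.ofFn_eq_map, Fin.univ_val_map]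
    rw [List.ofFn_eq_map]
  rw [e, e, Multiset.coe_eq_coe] at hm
  have s1 : (List.ofFn f).Pairwise (· ≤ ·) := by
    rw [List.pairwise_ofFn]; exact fun i j hij => hf hij.le
  have s2 : (List.ofFn f').Pairwise (· ≤ ·) := by
    rw [List.pairwise_ofFn]; exact fun i j hij => hf' hij.le
  exact List.ofFn_injective (hm.eq_of_pairwise' s1 s2)

lemma partOf_inj {m L : ℕ} {B B' : Finset ℕ} (hB : B.card = L)
    (hs : ∑ b ∈ B, b = m + ∑ i ∈ range L, i) (hB' : B'.card = L)
    (hs' : ∑ b ∈ B', b = m + ∑ i ∈ range L, i) (h : partOf B hB hs = partOf B' hB' hs') :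
    B = B' := by
  have h1 := congrArg Nat.Partition.parts h
  have m1 : StrictMono (fun i : Fin L => (B.orderEmbOfFin hB i : ℕ)) := (B.orderEmbOfFin hB).strictMono
  have m2 : StrictMono (fun i : Fin L => (B'.orderEmbOfFin hB' i : ℕ)) :=
    (B'.orderEmbOfFin hB').strictMono
  have h2 := eq_of_filter_eq (mono_sub m1) (mono_sub m2) h1
  rw [← Finset.image_orderEmbOfFin_univ B hB, ← Finset.image_orderEmbOfFin_univ B' hB']
  refine Finset.image_congr fun i _ => ?_
  have h3 : B.orderEmbOfFin hB i - (i : ℕ) = B'.orderEmbOfFin hB' i - (i : ℕ) := congrFun h2 i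
  have h4 : (i : ℕ) ≤ B.orderEmbOfFin hB i := fin_le_of_strictMono m1 i
  have h5 : (i : ℕ) ≤ B'.orderEmbOfFin hB' i := fin_le_of_strictMono m2 i
  omega

/-- The partition is determined by its bead set. -/
lemma beads_inj {n L : ℕ} (hL : n ≤ L) {lam lam' : n.Partition}
    (h : beads lam L = beads lam' L) : lam = lam' := by
  have key : ∀ mu : n.Partition, ∀ i : Fin L,
      bead mu L i = (beads mu L).orderEmbOfFin (card_beads mu L) i := by
    intro mu i
    have := Finset.orderEmbOfFin_unique (card_beads mu L) (f := fun i : Fin L => bead mu L i)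
      (fun x => by
        unfold beads
        exact Finset.mem_image_of_mem _ (Finset.mem_range.mpr x.2))
      (fun a b hab => bead_lt mu L hab)
    exact congrFun this i
  have h1 : ∀ i : Fin L, bead lam L i = bead lam' L i := by
    intro i
    rw [key lam i, key lam' i]
    simp only [h]
  apply eq_of_rows
  intro i
  rcases lt_or_ge i L with hi | hi
  · have h2 := h1 ⟨L - 1 - i, by omega⟩
    unfold bead at h2
    simp only at h2
    rw [show L - 1 - (L - 1 - i) = i by omega] at h2
    omega
  · rw [row_eq_zero lam (hL.trans hi), row_eq_zero lam' (hL.trans hi)]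

/-- Reassemble a set from its runners. -/
def assemble {t : ℕ} (Q : Fin t → Finset ℕ) : Finset ℕ :=
  Finset.univ.biUnion fun r : Fin t => (Q r).image fun q => q * t + r

lemma mul_add_inj {t q q' : ℕ} {r r' : Fin t} (h : q * t + r = q' * t + r') : q = q' ∧ r = r' := by
  have ht : 0 < t := lt_of_le_of_lt (Nat.zero_le _) r.2
  have h1 : (q * t + r) / t = q := by
    rw [mul_comm, Nat.mul_add_div ht, Nat.div_eq_of_lt r.2, add_zero]
  have h2 : (q' * t + r') / t = q' := by
    rw [mul_comm, Nat.mul_add_div ht, Nat.div_eq_of_lt r'.2, add_zero]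
  have h3 : q = q' := by rw [← h1, ← h2, h]
  refine ⟨h3, ?_⟩
  subst h3
  exact Fin.ext (by omega)

lemma mem_assemble {t : ℕ} (Q : Fin t → Finset ℕ) (r : Fin t) (q : ℕ) :
    q * t + r ∈ assemble Q ↔ q ∈ Q r := by
  unfold assemble
  rw [Finset.mem_biUnion]
  constructor
  · rintro ⟨r', _, h⟩
    rw [Finset.mem_image] at h
    obtain ⟨q', hq', h⟩ := h
    obtain ⟨rfl, rfl⟩ := mul_add_inj h
    exact hq'
  · intro h
    exact ⟨r, Finset.mem_univ _, Finset.mem_image_of_mem _ h⟩

lemma sum_assemble {t : ℕ} (Q : Fin t → Finset ℕ) (F : ℕ → ℕ) :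
    ∑ b ∈ assemble Q, F b = ∑ r : Fin t, ∑ q ∈ Q r, F (q * t + r) := by
  unfold assemble
  rw [Finset.sum_biUnion]
  · refine Finset.sum_congr rfl fun r _ => ?_
    rw [Finset.sum_image]
    intro q _ q' _ h
    exact (mul_add_inj (r := r) (r' := r) h).1
  · intro r _ r' _ hne
    rw [Function.onFun, Finset.disjoint_left]
    intro b hb hb'
    rw [Finset.mem_image] at hb hb'
    obtain ⟨q, _, h⟩ := hb
    obtain ⟨q', _, h'⟩ := hb'
    exact hne (mul_add_inj (h.trans h'.symm)).2

/-- The runners of a set. -/
noncomputable def runner (t : ℕ) (B : Finset ℕ) (r : Fin t) : Finset ℕ :=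
  (B.filter fun b => b % t = r).image fun b => b / t

lemma mem_runner {t : ℕ} (B : Finset ℕ) (r : Fin t) (q : ℕ) :
    q ∈ runner t B r ↔ q * t + r ∈ B := by
  have ht : 0 < t := lt_of_le_of_lt (Nat.zero_le _) r.2
  unfold runner
  simp only [Finset.mem_image, Finset.mem_filter]
  constructor
  · rintro ⟨b, ⟨hb, hr⟩, rfl⟩
    have := Nat.div_add_mod b t
    rw [hr] at this
    rwa [mul_comm, this]
  · intro h
    refine ⟨q * t + r, ⟨h, ?_⟩, ?_⟩
    · rw [mul_comm, Nat.mul_add_mod, Nat.mod_eq_of_lt r.2]
    · rw [mul_comm, Nat.mul_add_div ht, Nat.div_eq_of_lt r.2, add_zero]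

lemma assemble_runner {t : ℕ} (ht : 0 < t) (B : Finset ℕ) : assemble (runner t B) = B := by
  ext b
  have h1 : b = (b / t) * t + (⟨b % t, Nat.mod_lt b ht⟩ : Fin t) := by
    simp only
    rw [mul_comm]; exact (Nat.div_add_mod b t).symm
  rw [h1, mem_assemble, mem_runner]

lemma down_closed {S : Finset ℕ} (h : ∀ q, q + 1 ∈ S → q ∈ S) : S = range S.card := by
  have h1 : ∀ k q, q + k ∈ S → q ∈ S := by
    intro k
    induction k with
    | zero => intro q hq; exact hq
    | succ k ih => intro q hq; exact ih q (h _ hq)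
  have h2 : ∀ q ∈ S, q < S.card := by
    intro q hq
    have : range (q + 1) ⊆ S := by
      intro i hi
      rw [Finset.mem_range] at hi
      exact h1 (q - i) i (by rwa [show i + (q - i) = q by omega])
    have := Finset.card_le_card this
    rw [Finset.card_range] at this
    omega
  apply Finset.eq_of_subset_of_card_le
  · intro q hq
    exact Finset.mem_range.mpr (h2 q hq)
  · rw [Finset.card_range]

/-- A runner whose top bead has been pushed up by `c`. -/
def pushed (a c : ℕ) : Finset ℕ := insert (a - 1 + c) (range (a - 1))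

lemma pushed_notMem (a c : ℕ) : a - 1 + c ∉ range (a - 1) := by
  rw [Finset.mem_range]; omega

lemma card_pushed {a c : ℕ} (ha : 1 ≤ a) : (pushed a c).card = a := by
  unfold pushed
  rw [Finset.card_insert_of_notMem (pushed_notMem a c), Finset.card_range]; omega

lemma sum_pushed {a c : ℕ} (ha : 1 ≤ a) (t r : ℕ) :
    ∑ q ∈ pushed a c, (q * t + r) = ∑ q ∈ range a, (q * t + r) + c * t := by
  unfold pushed
  rw [Finset.sum_insert (pushed_notMem a c)]
  obtain ⟨a, rfl⟩ := Nat.exists_eq_add_of_le' ha
  rw [Finset.sum_range_succ]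
  simp only [Nat.add_sub_cancel]
  ring

lemma pushed_inj {a c a' c' : ℕ} (ha : 1 ≤ a) (ha' : 1 ≤ a') (h : pushed a c = pushed a' c') :
    a = a' ∧ c = c' := by
  have h1 : a = a' := by rw [← card_pushed (c := c) ha, ← card_pushed (c := c') ha', h]
  subst h1
  refine ⟨rfl, ?_⟩
  have h2 := sum_pushed (c := c) ha 1 0
  have h3 := sum_pushed (c := c') ha 1 0
  rw [h] at h2
  omega

end sets

section inject

variable {n : ℕ}

/-- Runner lengths. -/
noncomputable def rl (lam : n.Partition) (L t : ℕ) (r : Fin t) : ℕ := (runner t (beads lam L) r).card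

lemma runner_eq (lam : n.Partition) {L t : ℕ} (hL : n ≤ L) (ht : 1 ≤ t) (hc : IsCore t lam)
    (r : Fin t) : runner t (beads lam L) r = range (rl lam L t r) := by
  apply down_closed
  intro q hq
  rw [mem_runner] at hq ⊢
  apply core_closed lam L hL ht hc
  convert hq using 1
  ring

lemma rl_pos (lam : n.Partition) {L t : ℕ} (hL : n + t ≤ L) (r : Fin t) : 1 ≤ rl lam L t r := by
  unfold rl
  rw [Nat.one_le_iff_ne_zero, ← Nat.pos_iff_ne_zero, Finset.card_pos]
  refine ⟨0, ?_⟩
  rw [mem_runner]
  simp only [zero_mul, zero_add]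
  exact mem_beads_of_lt lam L t hL r.2

lemma rl_inj {lam lam' : n.Partition} {L t : ℕ} (hL : n ≤ L) (ht : 1 ≤ t) (hc : IsCore t lam)
    (hc' : IsCore t lam') (h : ∀ r, rl lam L t r = rl lam' L t r) : lam = lam' := by
  apply beads_inj hL
  rw [← assemble_runner (t := t) (by omega) (beads lam L),
    ← assemble_runner (t := t) (by omega) (beads lam' L)]
  congr 1
  funext r
  rw [runner_eq lam hL ht hc, runner_eq lam' hL ht hc', h r]

/-- The pushed bead set. -/
noncomputable def pushSet (lam : n.Partition) (L t : ℕ) (c : Fin t → ℕ) : Finset ℕ :=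
  assemble fun r => pushed (rl lam L t r) (c r)

lemma card_pushSet (lam : n.Partition) {L t : ℕ} (hL : n + t ≤ L) (ht : 1 ≤ t)
    (hc : IsCore t lam) (c : Fin t → ℕ) : (pushSet lam L t c).card = L := by
  have h1 : (beads lam L).card = L := card_beads lam L
  rw [← assemble_runner (t := t) (by omega) (beads lam L), Finset.card_eq_sum_ones,
    sum_assemble] at h1
  unfold pushSet
  rw [Finset.card_eq_sum_ones, sum_assemble]
  refine Eq.trans ?_ h1
  refine Finset.sum_congr rfl fun r _ => ?_
  rw [← Finset.card_eq_sum_ones, ← Finset.card_eq_sum_ones, card_pushed (rl_pos lam hL r)]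
  rfl

lemma sum_pushSet (lam : n.Partition) {L t : ℕ} (hL : n + t ≤ L) (ht : 1 ≤ t)
    (hc : IsCore t lam) (c : Fin t → ℕ) :
    ∑ b ∈ pushSet lam L t c, b = (n + (∑ r, c r) * t) + ∑ i ∈ range L, i := by
  have h1 := sum_beads lam L (by omega)
  rw [← assemble_runner (t := t) (by omega) (beads lam L), sum_assemble] at h1
  unfold pushSet
  rw [sum_assemble]
  rw [Finset.sum_congr rfl fun r _ => sum_pushed (rl_pos lam hL r) t r, Finset.sum_add_distrib,
    ← Finset.sum_mul]
  rw [Finset.sum_congr rfl fun r _ => by rw [runner_eq lam (by omega) ht hc r]] at h1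
  omega

open scoped Classical in
/-- Cores times multisets of residues inject into partitions. -/
theorem card_core_le (n t w : ℕ) (ht : 1 ≤ t) :
    ((Finset.univ : Finset n.Partition).filter fun lam => IsCore t lam).card *
      (t + w - 1).choose w ≤ Fintype.card (n + w * t).Partition := by
  have h1 : (t + w - 1).choose w = Fintype.card (Sym (Fin t) w) := by
    rw [Sym.card_sym_eq_choose, Fintype.card_fin]
  rw [h1, ← Fintype.card_subtype, ← Fintype.card_prod]
  set L := n + t with hL
  have hcount : ∀ s : Sym (Fin t) w, ∑ r : Fin t, (s : Multiset (Fin t)).count r = w := by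
    intro s
    rw [Multiset.sum_count_eq_card (fun a _ => Finset.mem_univ a)]
    exact s.2
  refine Fintype.card_le_of_injective
    (fun p : {lam : n.Partition // IsCore t lam} × Sym (Fin t) w =>
      partOf (m := n + w * t) (L := L)
        (pushSet p.1.1 L t fun r => (p.2 : Multiset (Fin t)).count r)
        (card_pushSet p.1.1 le_rfl ht p.1.2 _)
        (by rw [sum_pushSet p.1.1 le_rfl ht p.1.2, hcount])) ?_
  rintro ⟨⟨lam, hc⟩, s⟩ ⟨⟨lam', hc'⟩, s'⟩ h
  have h2 := partOf_inj _ _ _ _ h
  unfold pushSet at h2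
  have h3 : ∀ r : Fin t, pushed (rl lam L t r) ((s : Multiset (Fin t)).count r) =
      pushed (rl lam' L t r) ((s' : Multiset (Fin t)).count r) := by
    intro r
    ext q
    rw [← mem_assemble (fun r => pushed (rl lam L t r) ((s : Multiset (Fin t)).count r)) r q,
      ← mem_assemble (fun r => pushed (rl lam' L t r) ((s' : Multiset (Fin t)).count r)) r q, h2]
  have h4 := fun r => pushed_inj (rl_pos lam le_rfl r) (rl_pos lam' le_rfl r) (h3 r)
  have h5 : lam = lam' := rl_inj (by omega) ht hc hc' fun r => (h4 r).1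
  have h6 : s = s' := by
    apply Sym.ext
    exact Multiset.ext.mpr fun r => (h4 r).2
  subst h5
  subst h6
  rfl

end inject

end MP024b77
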