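import Mathlib

/-!
# Sequences solving `n a(n) = Σ_k w(k) a(n-k)`

These are the coefficient sequences of `exp (Σ w(k) y^k / k)`.
-/

set_option autoImplicit false

namespace MP024b77

open Finset

/-- `a` solves `n a(n) = Σ_{k ≤ n} w(k) a(n-k)`. -/
def Solves (w a : ℕ → ℝ) : Prop :=
  ∀ n : ℕ, (n : ℝ) * a n = ∑ p ∈ antidiagonal n, w p.1 * a p.2

/-- Cauchy product of sequences. -/
def conv (a b : ℕ → ℝ) (n : ℕ) : ℝ := ∑ p ∈ antidiagonal n, a p.1 * b p.2

lemma solves_iff (w a : ℕ → ℝ) :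
    Solves w a ↔ PowerSeries.X * PowerSeries.derivative ℝ (PowerSeries.mk a) =
      PowerSeries.mk w * PowerSeries.mk a := by
  unfold Solves
  rw [PowerSeries.ext_iff]
  refine forall_congr' fun n => ?_
  rw [PowerSeries.coeff_mul n (PowerSeries.mk w)]
  simp only [PowerSeries.coeff_mk]
  cases n with
  | zero => simp
  | succ n =>
    rw [PowerSeries.coeff_succ_X_mul, PowerSeries.coeff_derivative]
    simp only [PowerSeries.coeff_mk]
    push_cast
    rw [mul_comm]

lemma mk_conv (a b : ℕ → ℝ) :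
    PowerSeries.mk (conv a b) = PowerSeries.mk a * PowerSeries.mk b := by
  ext n
  rw [PowerSeries.coeff_mul]
  simp [conv]

lemma Solves.conv {w a w' a' : ℕ → ℝ} (h : Solves w a) (h' : Solves w' a') :
    Solves (fun k => w k + w' k) (conv a a') := by
  rw [solves_iff] at *
  rw [mk_conv, Derivation.leibniz]
  have e : PowerSeries.mk (fun k => w k + w' k) = PowerSeries.mk w + PowerSeries.mk w' := by
    ext n; simp
  rw [e]
  simp only [smul_eq_mul]
  linear_combination (PowerSeries.mk a) * h' + (PowerSeries.mk a') * h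

lemma Solves.unique {w a b : ℕ → ℝ} (hw : w 0 = 0) (ha : Solves w a) (hb : Solves w b)
    (h0 : a 0 = b 0) : a = b := by
  funext n
  induction n using Nat.strong_induction_on with
  | _ n ih =>
    rcases Nat.eq_zero_or_pos n with rfl | hn
    · exact h0
    · have h1 := ha n
      have h2 := hb n
      have h3 : ∑ p ∈ antidiagonal n, w p.1 * a p.2 = ∑ p ∈ antidiagonal n, w p.1 * b p.2 := by
        refine Finset.sum_congr rfl fun p hp => ?_
        rw [HasAntidiagonal.mem_antidiagonal] at hp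
        rcases Nat.eq_zero_or_pos p.1 with h | h
        · rw [h, hw]; ring
        · rw [ih p.2 (by omega)]
      rw [h3] at h1
      have hn' : (n : ℝ) ≠ 0 := by positivity
      exact mul_left_cancel₀ hn' (h1.trans h2.symm)

lemma Solves.scale {w a : ℕ → ℝ} (h : Solves w a) (x : ℝ) :
    Solves (fun k => w k * x ^ k) (fun n => a n * x ^ n) := by
  intro n
  rw [← mul_assoc, h n, Finset.sum_mul]
  refine Finset.sum_congr rfl fun p hp => ?_
  rw [HasAntidiagonal.mem_antidiagonal] at hp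
  simp only
  rw [← hp, pow_add]; ring

/-- The solution with `a 0 = 1`. -/
noncomputable def sol (w : ℕ → ℝ) : ℕ → ℝ
  | 0 => 1
  | (n + 1) => (∑ k : Fin (n + 1), w (n + 1 - k.1) * sol w k.1) / ((n : ℝ) + 1)

lemma sol_zero (w : ℕ → ℝ) : sol w 0 = 1 := by rw [sol]

lemma sol_solves (w : ℕ → ℝ) (hw : w 0 = 0) : Solves w (sol w) := by
  intro n
  cases n with
  | zero => simp [hw]
  | succ n =>
    rw [sol]
    have hn : ((n : ℝ) + 1) ≠ 0 := by positivity
    push_cast
    rw [mul_div_cancel₀ _ hn]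
    rw [← Finset.sum_range (fun k => w (n + 1 - k) * sol w k)]
    rw [← Finset.Nat.sum_antidiagonal_swap, Finset.Nat.sum_antidiagonal_eq_sum_range_succ_mk]
    simp only [Prod.swap_prod_mk]
    rw [Finset.sum_range_succ _ (n + 1)]
    simp [hw]

lemma sol_nonneg (w : ℕ → ℝ) (hw : ∀ k, 0 ≤ w k) (n : ℕ) : 0 ≤ sol w n := by
  induction n using Nat.strong_induction_on with
  | _ n ih =>
    cases n with
    | zero => rw [sol]; norm_num
    | succ n =>
      rw [sol]
      refine div_nonneg (Finset.sum_nonneg fun k _ => mul_nonneg (hw _) (ih _ k.2)) (by positivity)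

lemma Solves.bounded {w a : ℕ → ℝ} (h : Solves w a) (hw : ∀ k, 0 ≤ w k) (hw0 : w 0 = 0)
    (ha : ∀ n, 0 ≤ a n) (hs : Summable w) : ∃ B : ℝ, ∀ n, a n ≤ B := by
  set W := ∑' k, w k with hW
  obtain ⟨N, hN⟩ := exists_nat_ge W
  set B := ∑ m ∈ range (N + 1), a m with hB
  refine ⟨B, fun n => ?_⟩
  have hB0 : 0 ≤ B := Finset.sum_nonneg fun m _ => ha m
  induction n using Nat.strong_induction_on with
  | _ n ih =>
    rcases le_or_gt n N with hn | hn
    · exact Finset.single_le_sum (f := a) (fun m _ => ha m) (by simp; omega)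
    · have h1 := h n
      have hn' : (0 : ℝ) < n := by
        have : 0 < n := by omega
        exact_mod_cast this
      have h2 : ∑ p ∈ antidiagonal n, w p.1 * a p.2 ≤ ∑ p ∈ antidiagonal n, w p.1 * B := by
        refine Finset.sum_le_sum fun p hp => ?_
        rw [HasAntidiagonal.mem_antidiagonal] at hp
        rcases Nat.eq_zero_or_pos p.1 with h | h
        · rw [h, hw0]; simp
        · exact mul_le_mul_of_nonneg_left (ih p.2 (by omega)) (hw _)
      have h3 : ∑ p ∈ antidiagonal n, w p.1 * B ≤ W * B := by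
        rw [← Finset.sum_mul]
        refine mul_le_mul_of_nonneg_right ?_ hB0
        rw [Finset.Nat.sum_antidiagonal_eq_sum_range_succ_mk]
        exact hs.sum_le_tsum _ (fun k _ => hw k)
      have h4 : (n : ℝ) * a n ≤ n * B := by
        rw [h1]
        refine (h2.trans h3).trans (mul_le_mul_of_nonneg_right ?_ hB0)
        have : (N : ℝ) < n := by exact_mod_cast hn
        linarith
      exact le_of_mul_le_mul_left h4 hn'

lemma Solves.summable {w a : ℕ → ℝ} (h : Solves w a) (hw : ∀ k, 0 ≤ w k) (hw0 : w 0 = 0)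
    (ha : ∀ n, 0 ≤ a n) (hs : ∀ x : ℝ, 0 < x → x < 1 → Summable fun k => w k * x ^ k)
    {x : ℝ} (hx0 : 0 < x) (hx1 : x < 1) : Summable fun n => a n * x ^ n := by
  obtain ⟨y, hxy, hy1⟩ := exists_between hx1
  have hy0 : 0 < y := hx0.trans hxy
  obtain ⟨B, hB⟩ := (h.scale y).bounded (fun k => by have := hw k; positivity) (by simp [hw0])
    (fun n => by have := ha n; positivity) (hs y hy0 hy1)
  have hr : x / y < 1 := by rw [div_lt_one hy0]; exact hxy
  have hr0 : 0 ≤ x / y := by positivity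
  refine Summable.of_nonneg_of_le (fun n => by have := ha n; positivity) (fun n => ?_)
    ((summable_geometric_of_lt_one hr0 hr).mul_left B)
  have : a n * x ^ n = (a n * y ^ n) * (x / y) ^ n := by
    rw [div_pow]; field_simp
  rw [this]
  exact mul_le_mul_of_nonneg_right (hB n) (by positivity)

section moments

variable {w f : ℕ → ℝ}

lemma Solves.hasSum_first (h : Solves w f) (hw : ∀ k, 0 ≤ w k) (hf : ∀ n, 0 ≤ f n)
    (sw : Summable w) (sf : Summable f) :
    HasSum (fun n : ℕ => (n : ℝ) * f n) ((∑' k, w k) * ∑' n, f n) := by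
  have h1 := tsum_mul_tsum_eq_tsum_sum_antidiagonal_of_summable_norm sw.norm sf.norm
  have h2 := (summable_norm_sum_mul_antidiagonal_of_summable_norm sw.norm sf.norm).of_norm
  rw [h1]
  have e : (fun n : ℕ => (n : ℝ) * f n) = fun n => ∑ kl ∈ antidiagonal n, w kl.1 * f kl.2 := by
    funext n; exact h n
  rw [e]
  exact h2.hasSum

lemma Solves.hasSum_second (h : Solves w f) (hw : ∀ k, 0 ≤ w k) (hf : ∀ n, 0 ≤ f n)
    (sw : Summable w) (sf : Summable f) (skw : Summable fun k : ℕ => (k : ℝ) * w k) :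
    HasSum (fun n : ℕ => (n : ℝ) ^ 2 * f n)
      ((∑' k : ℕ, (k : ℝ) * w k) * (∑' n, f n) + (∑' k, w k) ^ 2 * ∑' n, f n) := by
  have hfirst := h.hasSum_first hw hf sw sf
  have snf := hfirst.summable
  have h1 := tsum_mul_tsum_eq_tsum_sum_antidiagonal_of_summable_norm skw.norm sf.norm
  have h2 := (summable_norm_sum_mul_antidiagonal_of_summable_norm skw.norm sf.norm).of_norm
  have h3 := tsum_mul_tsum_eq_tsum_sum_antidiagonal_of_summable_norm sw.norm snf.norm
  have h4 := (summable_norm_sum_mul_antidiagonal_of_summable_norm sw.norm snf.norm).of_norm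
  have h5 := h2.hasSum.add h4.hasSum
  rw [← h1, ← h3, hfirst.tsum_eq] at h5
  have e : (fun n : ℕ => (n : ℝ) ^ 2 * f n) = fun n =>
      (∑ kl ∈ antidiagonal n, ((kl.1 : ℕ) : ℝ) * w kl.1 * f kl.2) +
      ∑ kl ∈ antidiagonal n, w kl.1 * (((kl.2 : ℕ) : ℝ) * f kl.2) := by
    funext n
    rw [pow_two, mul_assoc, h n, Finset.mul_sum, ← Finset.sum_add_distrib]
    refine Finset.sum_congr rfl fun p hp => ?_
    rw [HasAntidiagonal.mem_antidiagonal] at hp
    rw [← hp]; push_cast; ring
  rw [e, pow_two, mul_assoc]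
  exact h5

lemma Solves.hasSum_var (h : Solves w f) (hw : ∀ k, 0 ≤ w k) (hf : ∀ n, 0 ≤ f n)
    (sw : Summable w) (sf : Summable f) (skw : Summable fun k : ℕ => (k : ℝ) * w k) :
    HasSum (fun n : ℕ => ((n : ℝ) - ∑' k, w k) ^ 2 * f n)
      ((∑' k : ℕ, (k : ℝ) * w k) * (∑' n, f n)) := by
  have h1 := h.hasSum_first hw hf sw sf
  have h2 := h.hasSum_second hw hf sw sf skw
  have h3 := (h2.add (h1.mul_left (-2 * ∑' k, w k))).add (sf.hasSum.mul_left ((∑' k, w k) ^ 2))
  convert h3 using 1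
  · funext n; ring
  · ring

/-- Chebyshev's inequality for solutions. -/
lemma Solves.chebyshev (h : Solves w f) (hw : ∀ k, 0 ≤ w k) (hf : ∀ n, 0 ≤ f n)
    (sw : Summable w) (sf : Summable f) (skw : Summable fun k : ℕ => (k : ℝ) * w k)
    {R : ℝ} (hR : 0 < R) (s : Set ℕ) (hs : ∀ n ∈ s, R ≤ |(n : ℝ) - ∑' k, w k|) :
    ∑' n, s.indicator f n ≤ (∑' k : ℕ, (k : ℝ) * w k) / R ^ 2 * (∑' n, f n) := by
  have h1 := h.hasSum_var hw hf sw sf skw
  have h2 : ∑' n, s.indicator f n ≤ ∑' n : ℕ, (((n : ℝ) - ∑' k, w k) ^ 2 * f n) / R ^ 2 := by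
    refine Summable.tsum_le_tsum (fun n => ?_) (sf.indicator s) (h1.summable.div_const _)
    by_cases hn : n ∈ s
    · rw [Set.indicator_of_mem hn, le_div_iff₀ (by positivity), mul_comm]
      refine mul_le_mul_of_nonneg_right ?_ (hf n)
      rw [← sq_abs ((n : ℝ) - _)]
      exact pow_le_pow_left₀ hR.le (hs n hn) 2
    · rw [Set.indicator_of_notMem hn]
      have := hf n
      positivity
  refine h2.trans (le_of_eq ?_)
  rw [tsum_div_const, h1.tsum_eq]
  ring

end moments

end MP024b77
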