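import Mathlib
import Pool.Agent.Lib.MP_024b77_al.Rec

/-!
# The coefficients of `exp (y / (1 - y))` and their local estimates
-/

set_option autoImplicit false

namespace MP024b77

open Finset

/-- Coefficients of `exp (y/(1-y))`. -/
noncomputable def ell : ℕ → ℝ
  | 0 => 1
  | (n + 1) => ∑ j ∈ range (n + 1), (n.choose j : ℝ) / ((j + 1).factorial : ℝ)

lemma ell_zero : ell 0 = 1 := rfl

lemma ell_succ (n : ℕ) :
    ell (n + 1) = ∑ j ∈ range (n + 1), (n.choose j : ℝ) / ((j + 1).factorial : ℝ) := rfl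

lemma ell_nonneg (n : ℕ) : 0 ≤ ell n := by
  cases n with
  | zero => rw [ell_zero]; norm_num
  | succ n => rw [ell_succ]; exact Finset.sum_nonneg fun j _ => by positivity

lemma hockey1 (n j : ℕ) : ∑ m ∈ range (n + 1), m.choose j = (n + 1).choose (j + 1) := by
  induction n with
  | zero =>
    cases j with
    | zero => simp
    | succ j => simp [Nat.choose_eq_zero_of_lt]
  | succ n ih =>
    rw [Finset.sum_range_succ, ih, Nat.choose_succ_succ (n + 1) j, add_comm]

lemma hockey2 (n j : ℕ) : ∑ m ∈ range (n + 1), (n - m) * m.choose j = (n + 1).choose (j + 2) := by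
  induction n with
  | zero => simp [Nat.choose_eq_zero_of_lt]
  | succ n ih =>
    rw [Finset.sum_range_succ]
    have h : ∑ x ∈ range (n + 1), (n + 1 - x) * x.choose j =
        ∑ m ∈ range (n + 1), (n - m) * m.choose j + ∑ m ∈ range (n + 1), m.choose j := by
      rw [← Finset.sum_add_distrib]
      refine Finset.sum_congr rfl fun m hm => ?_
      rw [Finset.mem_range] at hm
      have : n + 1 - m = (n - m) + 1 := by omega
      rw [this]; ring
    rw [h, ih, hockey1, Nat.choose_succ_succ (n + 1) (j + 1)]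
    simp
    ring

lemma ell_solves : Solves (fun k => (k : ℝ)) ell := by
  intro n
  cases n with
  | zero => simp
  | succ n =>
    rw [← Finset.Nat.sum_antidiagonal_swap, Finset.Nat.sum_antidiagonal_eq_sum_range_succ_mk]
    simp only [Prod.swap_prod_mk]
    rw [Finset.sum_range_succ']
    simp only [ell_zero, ell_succ]
    have h1 : ∑ m ∈ range (n + 1), ((n + 1 - (m + 1) : ℕ) : ℝ) *
        ∑ j ∈ range (m + 1), (m.choose j : ℝ) / ((j + 1).factorial : ℝ) =
        ∑ j ∈ range (n + 1), ((n + 1).choose (j + 2) : ℝ) / ((j + 1).factorial : ℝ) := by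
      have h2 : ∀ m ∈ range (n + 1), ((n + 1 - (m + 1) : ℕ) : ℝ) *
          ∑ j ∈ range (m + 1), (m.choose j : ℝ) / ((j + 1).factorial : ℝ) =
          ∑ j ∈ range (n + 1), ((n - m : ℕ) : ℝ) * ((m.choose j : ℝ) / ((j + 1).factorial : ℝ)) := by
        intro m hm
        rw [Finset.mem_range] at hm
        rw [show n + 1 - (m + 1) = n - m by omega, Finset.mul_sum]
        refine Finset.sum_subset (fun j hj => ?_) (fun j _ hj => ?_)
        · simp only [Finset.mem_range] at hj ⊢; omega
        · simp only [Finset.mem_range] at hj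
          rw [Nat.choose_eq_zero_of_lt (by omega)]; simp
      rw [Finset.sum_congr rfl h2, Finset.sum_comm]
      refine Finset.sum_congr rfl fun j _ => ?_
      rw [← hockey2 n j]
      push_cast
      rw [Finset.sum_div]
      refine Finset.sum_congr rfl fun m _ => ?_
      ring
    rw [h1]
    have h3 : ((n + 1 : ℕ) : ℝ) * ∑ j ∈ range (n + 1), (n.choose j : ℝ) / ((j + 1).factorial : ℝ) =
        ∑ j ∈ range (n + 1), ((n + 1).choose (j + 1) : ℝ) / (j.factorial : ℝ) := by
      rw [Finset.mul_sum]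
      refine Finset.sum_congr rfl fun j _ => ?_
      have h4 := Nat.add_one_mul_choose_eq n j
      have h5 : ((n : ℝ) + 1) * (n.choose j : ℝ) = ((n + 1).choose (j + 1) : ℝ) * ((j : ℝ) + 1) := by
        have := congrArg (fun t : ℕ => (t : ℝ)) h4
        simpa using this
      rw [Nat.factorial_succ]
      have hj : (j.factorial : ℝ) ≠ 0 := by positivity
      have hj' : ((j : ℝ) + 1) ≠ 0 := by positivity
      push_cast
      field_simp
      linarith [h5]
    rw [h3, Finset.sum_range_succ']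
    have h6 : ∑ j ∈ range (n + 1), ((n + 1).choose (j + 2) : ℝ) / ((j + 1).factorial : ℝ) =
        ∑ j ∈ range n, ((n + 1).choose (j + 1 + 1) : ℝ) / ((j + 1).factorial : ℝ) := by
      rw [Finset.sum_range_succ, Nat.choose_eq_zero_of_lt (show n + 1 < n + 2 by omega)]
      simp
    rw [h6]
    simp

/-- Poisson weights (without normalisation). -/
lemma pois_solves (l : ℝ) :
    Solves (fun k => if k = 1 then l else 0) (fun n => l ^ n / (n.factorial : ℝ)) := by
  intro n
  cases n with
  | zero => simp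
  | succ n =>
    rw [Finset.Nat.sum_antidiagonal_eq_sum_range_succ_mk]
    rw [Finset.sum_eq_single 1]
    · simp only [if_true]
      rw [Nat.add_sub_cancel, Nat.factorial_succ]
      have hj : (n.factorial : ℝ) ≠ 0 := by positivity
      have hj' : ((n : ℝ) + 1) ≠ 0 := by positivity
      push_cast
      field_simp
      ring
    · intro b _ hb
      simp [hb]
    · intro h
      simp at h

lemma pois_summable (l : ℝ) : Summable fun n : ℕ => l ^ n / (n.factorial : ℝ) :=
  Real.summable_pow_div_factorial l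

lemma pois_tsum (l : ℝ) : ∑' n : ℕ, l ^ n / (n.factorial : ℝ) = Real.exp l := by
  rw [Real.exp_eq_exp_ℝ, NormedSpace.exp_eq_tsum_div]

/-- Chebyshev for Poisson weights: mass below `l/4`. -/
lemma pois_lower_tail {l : ℝ} (hl : 0 < l) (t : Finset ℕ) (ht : ∀ n ∈ t, (n : ℝ) ≤ l / 4) :
    ∑ n ∈ t, l ^ n / (n.factorial : ℝ) ≤ 2 / l * Real.exp l := by
  have hw : ∀ k : ℕ, (0 : ℝ) ≤ (if k = 1 then l else 0) := by
    intro k; split_ifs <;> linarith
  have hf : ∀ n : ℕ, (0 : ℝ) ≤ l ^ n / (n.factorial : ℝ) := fun n => by positivity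
  have sw : HasSum (fun k : ℕ => (if k = 1 then l else 0 : ℝ)) l := by
    have := hasSum_ite_eq (1 : ℕ) l
    exact this
  have skw : HasSum (fun k : ℕ => (k : ℝ) * (if k = 1 then l else 0 : ℝ)) l := by
    have e : (fun k : ℕ => (k : ℝ) * (if k = 1 then l else 0 : ℝ)) =
        fun k : ℕ => (if k = 1 then l else 0 : ℝ) := by
      funext k
      split_ifs with h
      · rw [h]; simp
      · simp
    rw [e]
    exact sw
  have h := (pois_solves l).chebyshev hw hf sw.summable (pois_summable l) skw.summable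
    (R := 3 * l / 4) (by positivity) (t : Set ℕ) ?_
  · rw [skw.tsum_eq, pois_tsum] at h
    have h2 : ∑ n ∈ t, l ^ n / (n.factorial : ℝ) ≤
        ∑' n, (t : Set ℕ).indicator (fun n : ℕ => l ^ n / (n.factorial : ℝ)) n := by
      have e : ∑ n ∈ t, l ^ n / (n.factorial : ℝ) =
          ∑ n ∈ t, (t : Set ℕ).indicator (fun n : ℕ => l ^ n / (n.factorial : ℝ)) n := by
        refine Finset.sum_congr rfl fun n hn => ?_
        rw [Set.indicator_of_mem (by simpa using hn)]
      rw [e]
      exact ((pois_summable l).indicator _).sum_le_tsum t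
        (fun n _ => Set.indicator_nonneg (fun n _ => hf n) n)
    refine h2.trans (h.trans ?_)
    refine mul_le_mul_of_nonneg_right ?_ (Real.exp_pos l).le
    rw [div_le_div_iff₀ (by positivity) hl]
    nlinarith
  · intro n hn
    rw [sw.tsum_eq, abs_sub_comm]
    have := ht n hn
    rw [abs_of_nonneg (by linarith)]
    linarith


/-- Upper bound for Poisson weights. -/
lemma pois_le {l : ℝ} (hl : 0 < l) {i : ℕ} (hi : l / 4 < i) :
    l ^ i / (i.factorial : ℝ) ≤ Real.exp l / √l := by
  have hi0 : (0 : ℝ) < i := by linarith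
  have hst := Stirling.le_factorial_stirling i
  have h1 : (l / i) * Real.exp 1 ≤ Real.exp (l / i) := by
    have h2 := Real.add_one_le_exp (l / i - 1)
    have h3 : Real.exp (l / i) = Real.exp (l / i - 1) * Real.exp 1 := by
      rw [← Real.exp_add]; ring_nf
    rw [h3]
    refine mul_le_mul_of_nonneg_right (by linarith) (Real.exp_pos 1).le
  have h4 : ((l / i) * Real.exp 1) ^ i ≤ Real.exp l := by
    calc ((l / i) * Real.exp 1) ^ i ≤ (Real.exp (l / i)) ^ i := by gcongr
      _ = Real.exp l := by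
        rw [← Real.exp_nat_mul]
        congr 1
        field_simp
  have h5 : √l ≤ √(2 * Real.pi * i) := by
    apply Real.sqrt_le_sqrt
    have := Real.pi_gt_three
    nlinarith
  have hsl : 0 < √l := Real.sqrt_pos.mpr hl
  have hfac : (0 : ℝ) < (i.factorial : ℝ) := by positivity
  rw [div_le_div_iff₀ hfac hsl]
  have h6 : l ^ i = ((l / i) * Real.exp 1) ^ i * ((i : ℝ) / Real.exp 1) ^ i := by
    rw [← mul_pow]
    congr 1
    field_simp
  rw [h6]
  calc ((l / i) * Real.exp 1) ^ i * ((i : ℝ) / Real.exp 1) ^ i * √l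
      ≤ Real.exp l * ((i : ℝ) / Real.exp 1) ^ i * √(2 * Real.pi * i) := by gcongr
    _ = Real.exp l * (√(2 * Real.pi * i) * ((i : ℝ) / Real.exp 1) ^ i) := by ring
    _ ≤ Real.exp l * (i.factorial : ℝ) := by gcongr

lemma factorial_le_stirling {i : ℕ} (hi : 1 ≤ i) :
    (i.factorial : ℝ) ≤ Real.exp 1 * √i * ((i : ℝ) / Real.exp 1) ^ i := by
  have h := Stirling.stirlingSeq'_antitone (Nat.zero_le (i - 1))
  simp only [Function.comp] at h
  rw [show (i - 1).succ = i by omega, show (0 : ℕ).succ = 1 by rfl, Stirling.stirlingSeq_one,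
    Stirling.stirlingSeq] at h
  have hi0 : (0 : ℝ) < i := by exact_mod_cast hi
  have hpos : 0 < √(2 * (i : ℝ)) * ((i : ℝ) / Real.exp 1) ^ i := by positivity
  rw [div_le_iff₀ hpos] at h
  refine h.trans (le_of_eq ?_)
  rw [Real.sqrt_mul (by norm_num)]
  have : √(2 : ℝ) ≠ 0 := by positivity
  field_simp

/-- Lower bound for Poisson weights near the mean. -/
lemma pois_ge {l K : ℝ} (hl : 1 ≤ l) (hK : 0 ≤ K) {i : ℕ} (hi : 1 ≤ i)
    (h : |(i : ℝ) - l| ≤ K * √l) :
    Real.exp (-K ^ 2 - 1) * Real.exp l / √(i : ℝ) ≤ l ^ i / (i.factorial : ℝ) := by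
  have hi0 : (0 : ℝ) < i := by exact_mod_cast hi
  have hl0 : 0 < l := by linarith
  have hfac : (0 : ℝ) < (i.factorial : ℝ) := by positivity
  have hst := factorial_le_stirling hi
  have hsi : 0 < √(i : ℝ) := Real.sqrt_pos.mpr hi0
  rw [div_le_div_iff₀ hsi hfac]
  -- i/l ≤ exp (i/l - 1)
  have h1 : (i : ℝ) / l ≤ Real.exp (i / l - 1) := by
    have := Real.add_one_le_exp ((i : ℝ) / l - 1)
    linarith
  have h2 : ((i : ℝ) / l) ^ i ≤ Real.exp (i * (i / l - 1)) := by
    rw [Real.exp_nat_mul]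
    gcongr
  -- i (i/l - 1) = (i - l) + (i-l)^2/l
  have h3 : (i : ℝ) * (i / l - 1) = (i - l) + (i - l) ^ 2 / l := by
    field_simp
    ring
  have h4 : ((i : ℝ) - l) ^ 2 / l ≤ K ^ 2 := by
    rw [div_le_iff₀ hl0]
    have h5 : ((i : ℝ) - l) ^ 2 ≤ (K * √l) ^ 2 := by
      rw [← sq_abs]
      exact pow_le_pow_left₀ (abs_nonneg _) h 2
    rw [mul_pow, Real.sq_sqrt hl0.le] at h5
    exact h5
  have h5 : ((i : ℝ) / Real.exp 1) ^ i ≤ l ^ i * Real.exp (K ^ 2 - l) := by
    have e1 : ((i : ℝ) / Real.exp 1) ^ i = l ^ i * (((i : ℝ) / l) ^ i * (Real.exp (-1)) ^ i) := by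
      rw [← mul_pow, ← mul_pow]
      congr 1
      rw [Real.exp_neg]
      field_simp
    rw [e1]
    have e2 : (Real.exp (-1)) ^ i = Real.exp (-(i : ℝ)) := by
      rw [← Real.exp_nat_mul]; ring_nf
    rw [e2]
    refine mul_le_mul_of_nonneg_left ?_ (by positivity)
    calc ((i : ℝ) / l) ^ i * Real.exp (-(i : ℝ)) ≤ Real.exp (i * (i / l - 1)) * Real.exp (-(i : ℝ)) := by
          gcongr
      _ = Real.exp (((i : ℝ) - l) ^ 2 / l - l) := by
          rw [← Real.exp_add, h3]; ring_nf
      _ ≤ Real.exp (K ^ 2 - l) := by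
          apply Real.exp_le_exp.mpr; linarith
  calc Real.exp (-K ^ 2 - 1) * Real.exp l * (i.factorial : ℝ)
      ≤ Real.exp (-K ^ 2 - 1) * Real.exp l *
        (Real.exp 1 * √i * (l ^ i * Real.exp (K ^ 2 - l))) := by
        refine mul_le_mul_of_nonneg_left (hst.trans ?_) (by positivity)
        exact mul_le_mul_of_nonneg_left h5 (by positivity)
    _ = l ^ i * √(i : ℝ) * (Real.exp (-K ^ 2 - 1) * Real.exp l * Real.exp 1 *
        Real.exp (K ^ 2 - l)) := by ring
    _ = l ^ i * √(i : ℝ) := by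
        rw [← Real.exp_add, ← Real.exp_add, ← Real.exp_add]
        ring_nf
        simp

/-- Binomial weights. -/
noncomputable def bin (n : ℕ) (u : ℝ) (j : ℕ) : ℝ := (n.choose j : ℝ) * u ^ j * (1 - u) ^ (n - j)

lemma bin_nonneg {n : ℕ} {u : ℝ} (h0 : 0 ≤ u) (h1 : u ≤ 1) (j : ℕ) : 0 ≤ bin n u j := by
  have : 0 ≤ 1 - u := by linarith
  unfold bin; positivity

lemma bin_sum (n : ℕ) (u : ℝ) : ∑ j ∈ range (n + 1), bin n u j = 1 := by
  have h := add_pow u (1 - u) n
  have : u + (1 - u) = 1 := by ring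
  rw [this, one_pow] at h
  rw [h]
  exact Finset.sum_congr rfl fun j _ => by unfold bin; ring

lemma bin_le_one {n : ℕ} {u : ℝ} (h0 : 0 ≤ u) (h1 : u ≤ 1) {j : ℕ} (hj : j ∈ range (n + 1)) :
    bin n u j ≤ 1 := by
  rw [← bin_sum n u]
  exact Finset.single_le_sum (f := bin n u) (fun i _ => bin_nonneg h0 h1 i) hj

lemma bin_var (n : ℕ) (u : ℝ) :
    ∑ j ∈ range (n + 1), ((j : ℝ) - n * u) ^ 2 * bin n u j = n * u * (1 - u) := by
  have h := congrArg (Polynomial.eval u) (bernsteinPolynomial.variance (R := ℝ) n)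
  simp only [Polynomial.eval_finsetSum, bernsteinPolynomial, Polynomial.eval_mul,
    Polynomial.eval_pow, Polynomial.eval_sub, Polynomial.eval_X, Polynomial.eval_natCast,
    nsmul_eq_mul, Polynomial.eval_one] at h
  rw [← h]
  refine Finset.sum_congr rfl fun j _ => ?_
  unfold bin
  ring

lemma ell_eq_sum (n : ℕ) {x : ℝ} (hx1 : x < 1) :
    ell (n + 1) * x ^ (n + 1) = (1 - x) * ∑ j ∈ range (n + 1),
      bin n (1 - x) j * ((x / (1 - x)) ^ (j + 1) / ((j + 1).factorial : ℝ)) := by
  rw [ell_succ, Finset.sum_mul, Finset.mul_sum]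
  refine Finset.sum_congr rfl fun j hj => ?_
  rw [Finset.mem_range] at hj
  have hu : (1 - x) ≠ 0 := by
    have : 0 < 1 - x := by linarith
    exact this.ne'
  unfold bin
  rw [show 1 - (1 - x) = x by ring]
  have e : x ^ (n + 1) = x ^ (n - j) * x ^ (j + 1) := by
    rw [← pow_add]; congr 1; omega
  rw [e, div_pow, pow_succ (1 - x) j]
  have hfac : ((j + 1).factorial : ℝ) ≠ 0 := by positivity
  field_simp

/-- Upper local estimate. -/
lemma ell_upper {x : ℝ} (hx0 : 1 / 2 ≤ x) (hx1 : x < 1) (m : ℕ) :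
    ell m * x ^ m ≤ 8 * ((1 - x) * √(1 - x)) * Real.exp (x / (1 - x)) := by
  set u := 1 - x with hu
  have hu0 : 0 < u := by rw [hu]; linarith
  have hu2 : u ≤ 1 / 2 := by rw [hu]; linarith
  set l := x / u with hl
  have hl0 : 1 / (2 * u) ≤ l := by
    rw [hl, div_le_div_iff₀ (by positivity) hu0]
    nlinarith
  have hlpos : 0 < l := lt_of_lt_of_le (by positivity) hl0
  have hsu : 0 < √u := Real.sqrt_pos.mpr hu0
  have hsu1 : √u ≤ 1 := by
    rw [Real.sqrt_le_one]; linarith
  have hsq : √u * √u = u := Real.mul_self_sqrt hu0.le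
  cases m with
  | zero =>
    rw [ell_zero, pow_zero, mul_one]
    have h1 : l ^ 2 / 2 ≤ Real.exp l := by
      have := Real.quadratic_le_exp_of_nonneg hlpos.le
      linarith
    have h2 : 1 / (8 * u ^ 2) ≤ l ^ 2 / 2 := by
      have : (1 / (2 * u)) ^ 2 ≤ l ^ 2 := by gcongr
      calc 1 / (8 * u ^ 2) = (1 / (2 * u)) ^ 2 / 2 := by field_simp; norm_num
        _ ≤ _ := by linarith
    have h3 : 1 ≤ 8 * (u * √u) * (1 / (8 * u ^ 2)) := by
      rw [mul_one_div, le_div_iff₀ (by positivity)]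
      nlinarith [mul_pos hu0 hsu, mul_nonneg hu0.le (mul_nonneg hsu.le (sub_nonneg.mpr hsu1))]
    calc (1 : ℝ) ≤ 8 * (u * √u) * (1 / (8 * u ^ 2)) := h3
      _ ≤ 8 * (u * √u) * Real.exp l := by
        refine mul_le_mul_of_nonneg_left (h2.trans h1) (by positivity)
  | succ n =>
    rw [ell_eq_sum n hx1, ← hu, ← hl]
    have hb0 : ∀ j, 0 ≤ bin n u j := fun j => bin_nonneg hu0.le (by linarith) j
    have h1 : ∑ j ∈ range (n + 1), bin n u j * (l ^ (j + 1) / ((j + 1).factorial : ℝ)) ≤
        Real.exp l / √l + 2 / l * Real.exp l := by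
      have h2 : ∀ j ∈ range (n + 1), bin n u j * (l ^ (j + 1) / ((j + 1).factorial : ℝ)) ≤
          bin n u j * (Real.exp l / √l) +
            (if ((j + 1 : ℕ) : ℝ) ≤ l / 4 then l ^ (j + 1) / ((j + 1).factorial : ℝ) else 0) := by
        intro j hj
        have hq : 0 ≤ l ^ (j + 1) / ((j + 1).factorial : ℝ) := by positivity
        split_ifs with hc
        · have h3 := bin_le_one hu0.le (by linarith) hj (u := u)
          have h4 : bin n u j * (l ^ (j + 1) / ((j + 1).factorial : ℝ)) ≤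
            1 * (l ^ (j + 1) / ((j + 1).factorial : ℝ)) := by gcongr
          have h5 : 0 ≤ bin n u j * (Real.exp l / √l) := mul_nonneg (hb0 j) (by positivity)
          linarith
        · rw [add_zero]
          exact mul_le_mul_of_nonneg_left (pois_le hlpos (by push Not at hc; exact hc)) (hb0 j)
      refine (Finset.sum_le_sum h2).trans ?_
      rw [Finset.sum_add_distrib, ← Finset.sum_mul, bin_sum, one_mul]
      refine add_le_add le_rfl ?_
      rw [← Finset.sum_filter]
      have h3 := pois_lower_tail hlpos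
        (((range (n + 1)).filter fun j => ((j + 1 : ℕ) : ℝ) ≤ l / 4).image (fun j => j + 1)) ?_
      · rw [Finset.sum_image (fun a _ b _ h => by simpa using h)] at h3
        exact h3
      · intro k hk
        rw [Finset.mem_image] at hk
        obtain ⟨j, hj, rfl⟩ := hk
        exact (Finset.mem_filter.mp hj).2
    have hsl : 1 / √l ≤ 2 * √u := by
      have h3 : √(1 / (2 * u)) ≤ √l := Real.sqrt_le_sqrt hl0
      have h4 : 0 < √l := Real.sqrt_pos.mpr hlpos
      rw [div_le_iff₀ h4]
      have h5 : √u * √(1 / (2 * u)) = √(1 / 2) := by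
        rw [← Real.sqrt_mul hu0.le]
        congr 1; field_simp
      have h6 : (1 / 2 : ℝ) ≤ √(1 / 2) := by
        apply Real.le_sqrt_of_sq_le; norm_num
      nlinarith
    have h2l : 2 / l ≤ 4 * √u := by
      rw [div_le_iff₀ hlpos]
      have h3 : √u * (1 / (2 * u)) ≤ √u * l := by gcongr
      have h4 : 1 / 2 ≤ √u * (1 / (2 * u)) := by
        rw [mul_one_div, le_div_iff₀ (by positivity)]
        nlinarith
      nlinarith
    calc u * ∑ j ∈ range (n + 1), bin n u j * (l ^ (j + 1) / ((j + 1).factorial : ℝ))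
        ≤ u * (Real.exp l / √l + 2 / l * Real.exp l) := by gcongr
      _ = u * Real.exp l * (1 / √l + 2 / l) := by ring
      _ ≤ u * Real.exp l * (2 * √u + 4 * √u) := by gcongr
      _ ≤ 8 * (u * √u) * Real.exp l := by
        nlinarith [mul_pos (mul_pos hu0 hsu) (Real.exp_pos l)]

/-- Lower local estimate. -/
lemma ell_lower (K : ℝ) (hK : 1 ≤ K) : ∃ c : ℝ, 0 < c ∧ ∀ x : ℝ, 1 / 2 ≤ x → x < 1 →
    K * √(1 - x) < 1 / 2 → ∀ m : ℕ,
    |(m : ℝ) - x / (1 - x) ^ 2| ≤ K / ((1 - x) * √(1 - x)) →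
    c * ((1 - x) * √(1 - x)) * Real.exp (x / (1 - x)) ≤ ell m * x ^ m := by
  set K₂ : ℝ := 6 * K with hK₂
  have hK₂0 : 0 ≤ K₂ := by rw [hK₂]; linarith
  refine ⟨1 / 2 * Real.exp (-K₂ ^ 2 - 1) / √(1 + K₂), by positivity, ?_⟩
  intro x hx0 hx1 hsm m hm
  set u := 1 - x with hu
  have hu0 : 0 < u := by rw [hu]; linarith
  have hu2 : u ≤ 1 / 2 := by rw [hu]; linarith
  have hxu : x = 1 - u := by rw [hu]; ring
  set l := x / u with hl
  have hl0 : 1 / (2 * u) ≤ l := by
    rw [hl, div_le_div_iff₀ (by positivity) hu0]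
    nlinarith
  have hl1 : l ≤ 1 / u := by
    rw [hl]; gcongr
  have hl1' : 1 ≤ l := by
    refine le_trans ?_ hl0
    rw [le_div_iff₀ (by positivity)]; linarith
  have hlpos : 0 < l := by linarith
  have hsu : 0 < √u := Real.sqrt_pos.mpr hu0
  have hsq : √u * √u = u := Real.mul_self_sqrt hu0.le
  have hsl : 0 < √l := Real.sqrt_pos.mpr hlpos
  have hsl2 : √l * √l = l := Real.mul_self_sqrt hlpos.le
  -- √l * √u ≥ 1/2
  have hslu : 7 / 10 ≤ √l * √u := by
    rw [← Real.sqrt_mul hlpos.le]
    apply Real.le_sqrt_of_sq_le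
    have : 1 / 2 ≤ l * u := by
      have := mul_le_mul_of_nonneg_right hl0 hu0.le
      calc (1 / 2 : ℝ) = 1 / (2 * u) * u := by field_simp
        _ ≤ _ := this
    nlinarith
  have hslu1 : √l * √u ≤ 1 := by
    rw [← Real.sqrt_mul hlpos.le, Real.sqrt_le_one]
    calc l * u ≤ 1 / u * u := by gcongr
      _ = 1 := by field_simp
  cases m with
  | zero =>
    exfalso
    rw [Nat.cast_zero, zero_sub, abs_neg, abs_of_nonneg (by positivity),
      div_le_div_iff₀ (by positivity) (by positivity)] at hm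
    have h1 : x * (u * √u) ≥ 1 / 2 * (u * √u) := by gcongr
    have h2 : K * u ^ 2 = (K * √u) * (u * √u) := by
      rw [pow_two]; nth_rewrite 2 [← hsq]; ring
    rw [h2] at hm
    have h3 : (K * √u) * (u * √u) < 1 / 2 * (u * √u) := by
      have : 0 < u * √u := by positivity
      exact mul_lt_mul_of_pos_right hsm this
    linarith
  | succ n =>
    rw [ell_eq_sum n hx1, ← hu, ← hl]
    have hb0 : ∀ j, 0 ≤ bin n u j := fun j => bin_nonneg hu0.le (by linarith) j
    -- centre
    have hc : |(n : ℝ) * u + 1 - l| ≤ (K + 1) / √u := by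
      have e : (n : ℝ) * u + 1 - l = (((n + 1 : ℕ) : ℝ) - x / u ^ 2) * u + x := by
        rw [hl]; push_cast; field_simp; rw [hxu]; ring
      rw [e]
      have h1 : |(((n + 1 : ℕ) : ℝ) - x / u ^ 2) * u| ≤ K / √u := by
        rw [abs_mul, abs_of_pos hu0]
        calc |((n + 1 : ℕ) : ℝ) - x / u ^ 2| * u ≤ K / (u * √u) * u := by gcongr
          _ = K / √u := by field_simp
      have h2 : |x| ≤ 1 / √u := by
        rw [abs_of_nonneg (by linarith), le_div_iff₀ hsu]
        have : √u ≤ 1 := by rw [Real.sqrt_le_one]; linarith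
        nlinarith
      calc _ ≤ _ := abs_add_le _ _
        _ ≤ K / √u + 1 / √u := add_le_add h1 h2
        _ = (K + 1) / √u := by ring
    have hnu : (n : ℝ) * u ≤ (1 + K) / u := by
      have h1 := (abs_le.mp hm).2
      push_cast at h1
      have h2 : K / (u * √u) ≤ K / (u * u) := by
        have : u ≤ √u := by
          have : √u ≤ 1 := by rw [Real.sqrt_le_one]; linarith
          nlinarith
        gcongr
      have h3 : x / u ^ 2 ≤ 1 / u ^ 2 := by gcongr
      have h4 : (n : ℝ) ≤ (1 + K) / (u * u) := by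
        have : (1 + K) / (u * u) = 1 / u ^ 2 + K / (u * u) := by rw [pow_two]; ring
        rw [this]; linarith
      calc (n : ℝ) * u ≤ (1 + K) / (u * u) * u := by gcongr
        _ = (1 + K) / u := by field_simp
    -- Chebyshev
    set G := (range (n + 1)).filter fun j : ℕ => |((j + 1 : ℕ) : ℝ) - l| ≤ K₂ * √l with hG
    have hbad : ∑ j ∈ (range (n + 1)).filter (fun j : ℕ => ¬ |((j + 1 : ℕ) : ℝ) - l| ≤ K₂ * √l),
        bin n u j ≤ 1 / 2 := by
      have h1 : ∀ j ∈ (range (n + 1)).filter (fun j : ℕ => ¬ |((j + 1 : ℕ) : ℝ) - l| ≤ K₂ * √l),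
          bin n u j ≤ (((j : ℝ) - n * u) ^ 2 * bin n u j) * (u / (2 * (1 + K))) := by
        intro j hj
        have hj2 := (Finset.mem_filter.mp hj).2
        push Not at hj2
        have h2 : K₂ * √l - (K + 1) / √u < |(j : ℝ) - n * u| := by
          have e : ((j + 1 : ℕ) : ℝ) - l = ((j : ℝ) - n * u) + ((n : ℝ) * u + 1 - l) := by
            push_cast; ring
          rw [e] at hj2
          have := abs_add_le ((j : ℝ) - n * u) ((n : ℝ) * u + 1 - l)
          linarith
        have h3 : (2 * K) / √u ≤ K₂ * √l - (K + 1) / √u := by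
          rw [le_sub_iff_add_le, ← add_div, div_le_iff₀ hsu, hK₂]
          nlinarith
        have h4 : ((2 * K) / √u) ^ 2 ≤ ((j : ℝ) - n * u) ^ 2 := by
          rw [← sq_abs ((j : ℝ) - n * u)]
          exact pow_le_pow_left₀ (by positivity) (h3.trans h2.le) 2
        have h5 : ((2 * K) / √u) ^ 2 = 4 * K ^ 2 / u := by
          rw [div_pow, pow_two (√u), hsq]; ring
        rw [h5] at h4
        have h6 : 1 ≤ ((j : ℝ) - n * u) ^ 2 * (u / (2 * (1 + K))) := by
          calc (1 : ℝ) ≤ 4 * K ^ 2 / u * (u / (2 * (1 + K))) := by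
                rw [div_mul_div_comm, le_div_iff₀ (by positivity)]
                have : 2 * (1 + K) ≤ 4 * K ^ 2 := by nlinarith
                nlinarith
            _ ≤ _ := by gcongr
        calc bin n u j = 1 * bin n u j := (one_mul _).symm
          _ ≤ (((j : ℝ) - n * u) ^ 2 * (u / (2 * (1 + K)))) * bin n u j := by
              exact mul_le_mul_of_nonneg_right h6 (hb0 j)
          _ = _ := by ring
      refine (Finset.sum_le_sum h1).trans ?_
      rw [← Finset.sum_mul]
      have h2 : ∑ j ∈ (range (n + 1)).filter (fun j : ℕ => ¬ |((j + 1 : ℕ) : ℝ) - l| ≤ K₂ * √l),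
          ((j : ℝ) - n * u) ^ 2 * bin n u j ≤ n * u * (1 - u) := by
        rw [← bin_var n u]
        exact Finset.sum_le_sum_of_subset_of_nonneg (Finset.filter_subset _ _)
          (fun j _ _ => mul_nonneg (sq_nonneg _) (hb0 j))
      calc _ ≤ (n * u * (1 - u)) * (u / (2 * (1 + K))) := by gcongr
        _ ≤ ((1 + K) / u * 1) * (u / (2 * (1 + K))) := by
          have : 1 - u ≤ 1 := by linarith
          have : 0 ≤ 1 - u := by linarith
          gcongr
        _ = 1 / 2 := by field_simp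
    have hgood : 1 / 2 ≤ ∑ j ∈ G, bin n u j := by
      have h1 := Finset.sum_filter_add_sum_filter_not (range (n + 1))
        (fun j : ℕ => |((j + 1 : ℕ) : ℝ) - l| ≤ K₂ * √l) (bin n u)
      rw [bin_sum] at h1
      linarith
    have hq : ∀ j ∈ G, Real.exp (-K₂ ^ 2 - 1) * Real.exp l * (√u / √(1 + K₂)) ≤
        l ^ (j + 1) / ((j + 1).factorial : ℝ) := by
      intro j hj
      have hj2 := (Finset.mem_filter.mp hj).2
      refine le_trans ?_ (pois_ge hl1' (by positivity) (by omega) hj2)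
      rw [mul_div_assoc (Real.exp (-K₂ ^ 2 - 1))]
      rw [mul_assoc]
      refine mul_le_mul_of_nonneg_left ?_ (by positivity)
      rw [mul_div_assoc', div_le_div_iff₀ (by positivity) (by positivity), mul_assoc]
      refine mul_le_mul_of_nonneg_left ?_ (by positivity)
      rw [← Real.sqrt_mul hu0.le]
      apply Real.sqrt_le_sqrt
      have h1 := (abs_le.mp hj2).2
      have h2 : √l ≤ l := by
        have h2' := Real.one_le_sqrt.mpr hl1'
        calc √l = √l * 1 := (mul_one _).symm
          _ ≤ √l * √l := mul_le_mul_of_nonneg_left h2' hsl.le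
          _ = l := hsl2
      have h3 : ((j + 1 : ℕ) : ℝ) ≤ (1 + K₂) * l := by
        have h3' : K₂ * √l ≤ K₂ * l := mul_le_mul_of_nonneg_left h2 hK₂0
        rw [add_mul, one_mul]
        linarith
      calc u * ((j + 1 : ℕ) : ℝ) ≤ u * ((1 + K₂) * l) := by gcongr
        _ ≤ u * ((1 + K₂) * (1 / u)) := by gcongr
        _ = 1 + K₂ := by field_simp
    calc 1 / 2 * Real.exp (-K₂ ^ 2 - 1) / √(1 + K₂) * (u * √u) * Real.exp l
        = u * (1 / 2 * (Real.exp (-K₂ ^ 2 - 1) * Real.exp l * (√u / √(1 + K₂)))) := by ring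
      _ ≤ u * ((∑ j ∈ G, bin n u j) *
          (Real.exp (-K₂ ^ 2 - 1) * Real.exp l * (√u / √(1 + K₂)))) := by gcongr
      _ = u * ∑ j ∈ G, bin n u j *
          (Real.exp (-K₂ ^ 2 - 1) * Real.exp l * (√u / √(1 + K₂))) := by
          rw [Finset.sum_mul]
      _ ≤ u * ∑ j ∈ G, bin n u j * (l ^ (j + 1) / ((j + 1).factorial : ℝ)) := by
          refine mul_le_mul_of_nonneg_left (Finset.sum_le_sum fun j hj => ?_) hu0.le
          exact mul_le_mul_of_nonneg_left (hq j hj) (hb0 j)
      _ ≤ u * ∑ j ∈ range (n + 1), bin n u j * (l ^ (j + 1) / ((j + 1).factorial : ℝ)) := by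
          refine mul_le_mul_of_nonneg_left ?_ hu0.le
          exact Finset.sum_le_sum_of_subset_of_nonneg (Finset.filter_subset _ _)
            (fun j _ _ => mul_nonneg (hb0 j) (by positivity))

end MP024b77
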