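import Mathlib
import Pool.Agent.Lib.MP_024b77_al.Ell

/-!
# Two-sided local estimates for the number of partitions
-/

set_option autoImplicit false

namespace MP024b77

open Finset

/-- Number of partitions of `n`, as a real number. -/
noncomputable def pp (n : ℕ) : ℝ := (Fintype.card n.Partition : ℝ)

lemma pp_pos (n : ℕ) : 0 < pp n := by
  unfold pp
  have : 0 < Fintype.card n.Partition := Fintype.card_pos
  exact_mod_cast this

/-- Partitions of `n` with at least `j` parts equal to `k`. -/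
def replEquiv {n j k : ℕ} (hk : 1 ≤ k) (h : j * k ≤ n) :
    {p : n.Partition // j ≤ p.parts.count k} ≃ (n - j * k).Partition where
  toFun p := by
    refine ⟨p.1.parts - Multiset.replicate j k, ?_, ?_⟩
    · intro i hi
      exact p.1.parts_pos (Multiset.mem_of_le (Multiset.sub_le_self _ _) hi)
    · have h1 := Multiset.sub_add_cancel (Multiset.le_count_iff_replicate_le.mp p.2)
      have h2 := congrArg Multiset.sum h1
      rw [Multiset.sum_add, p.1.parts_sum, Multiset.sum_replicate, smul_eq_mul] at h2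
      omega
  invFun q := ⟨⟨q.parts + Multiset.replicate j k, by
      intro i hi
      rw [Multiset.mem_add] at hi
      rcases hi with hi | hi
      · exact q.parts_pos hi
      · rw [Multiset.eq_of_mem_replicate hi]; omega, by
      rw [Multiset.sum_add, q.parts_sum, Multiset.sum_replicate, smul_eq_mul]; omega⟩, by
      simp [Multiset.count_add, Multiset.count_replicate_self]⟩
  left_inv p := Subtype.ext <| Nat.Partition.ext <|
    Multiset.sub_add_cancel (Multiset.le_count_iff_replicate_le.mp p.2)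
  right_inv q := Nat.Partition.ext <| by simp

lemma card_count_ge {n j k : ℕ} (hk : 1 ≤ k) :
    ((univ : Finset n.Partition).filter fun p => j ≤ p.parts.count k).card =
      if j * k ≤ n then Fintype.card (n - j * k).Partition else 0 := by
  split_ifs with h
  · rw [← Fintype.card_subtype]
    exact Fintype.card_congr (replEquiv hk h)
  · rw [Finset.card_eq_zero, Finset.filter_eq_empty_iff]
    intro p _ hp
    have h1 := Multiset.le_count_iff_replicate_le.mp hp
    have h2 : (Multiset.replicate j k).sum ≤ p.parts.sum := by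
      obtain ⟨t, ht⟩ := Multiset.le_iff_exists_add.mp h1
      rw [ht, Multiset.sum_add]; omega
    rw [Multiset.sum_replicate, smul_eq_mul, p.parts_sum] at h2
    exact h h2

/-- Divisor sum. -/
noncomputable def sg (k : ℕ) : ℝ := ∑ d ∈ k.divisors, (d : ℝ)

lemma nat_rec (n : ℕ) : n * Fintype.card n.Partition =
    ∑ m ∈ range (n + 1), (∑ d ∈ m.divisors, d) * Fintype.card (n - m).Partition := by
  have h1 : n * Fintype.card n.Partition = ∑ p : n.Partition, ∑ k ∈ Icc 1 n,
      k * p.parts.count k := by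
    rw [← Finset.card_univ, mul_comm, ← smul_eq_mul, ← Finset.sum_const]
    refine Finset.sum_congr rfl fun p _ => ?_
    conv_lhs => rw [← p.parts_sum]
    rw [Finset.sum_multiset_count]
    simp only [smul_eq_mul]
    rw [Finset.sum_subset (s₂ := Icc 1 n)]
    · exact Finset.sum_congr rfl fun k _ => mul_comm _ _
    · intro k hk
      rw [Multiset.mem_toFinset] at hk
      rw [Finset.mem_Icc]
      exact ⟨p.parts_pos hk, p.le_of_mem_parts hk⟩
    · intro k _ hk
      rw [Multiset.mem_toFinset] at hk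
      rw [Multiset.count_eq_zero_of_notMem hk]; simp
  have h2 : ∀ p : n.Partition, ∀ k ∈ Icc 1 n, k * p.parts.count k =
      ∑ j ∈ Icc 1 n, if j ≤ p.parts.count k then k else 0 := by
    intro p k hk
    rw [Finset.mem_Icc] at hk
    rw [← Finset.sum_filter, Finset.sum_const, smul_eq_mul, mul_comm]
    congr 1
    have hle : p.parts.count k ≤ n := by
      have h3 := (Multiset.le_count_iff_replicate_le (n := p.parts.count k)).mp le_rfl
      obtain ⟨t, ht⟩ := Multiset.le_iff_exists_add.mp h3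
      have h4 := p.parts_sum
      rw [ht, Multiset.sum_add, Multiset.sum_replicate, smul_eq_mul] at h4
      have h5 : p.parts.count k ≤ p.parts.count k * k := Nat.le_mul_of_pos_right _ hk.1
      linarith [Nat.zero_le t.sum]
    have : (Icc 1 n).filter (fun j => j ≤ p.parts.count k) = Icc 1 (p.parts.count k) := by
      ext j
      simp only [Finset.mem_filter, Finset.mem_Icc]
      omega
    rw [this, Nat.card_Icc]; omega
  have h3 : n * Fintype.card n.Partition = ∑ k ∈ Icc 1 n, ∑ j ∈ Icc 1 n,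
      if j * k ≤ n then k * Fintype.card (n - j * k).Partition else 0 := by
    rw [h1, Finset.sum_comm]
    refine Finset.sum_congr rfl fun k hk => ?_
    rw [Finset.sum_congr rfl fun p _ => h2 p k hk, Finset.sum_comm]
    refine Finset.sum_congr rfl fun j _ => ?_
    rw [← Finset.sum_filter, Finset.sum_const, smul_eq_mul,
      card_count_ge (Finset.mem_Icc.mp hk).1]
    split_ifs <;> simp [mul_comm]
  rw [h3]
  simp_rw [Finset.sum_mul]
  rw [← Finset.sum_product', ← Finset.sum_filter, Finset.sum_sigma']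
  refine Finset.sum_bij' (fun a _ => (⟨a.2 * a.1, a.1⟩ : Σ _ : ℕ, ℕ)) (fun b _ => (b.2, b.1 / b.2))
    ?_ ?_ ?_ ?_ ?_
  · rintro ⟨k, j⟩ h
    simp only [Finset.mem_filter, Finset.mem_product, Finset.mem_Icc] at h
    simp only [Finset.mem_sigma, Finset.mem_range, Nat.mem_divisors]
    refine ⟨by omega, Dvd.intro_left _ rfl, ?_⟩
    have := Nat.mul_pos (show 0 < j by omega) (show 0 < k by omega)
    omega
  · rintro ⟨m, d⟩ h
    simp only [Finset.mem_sigma, Finset.mem_range, Nat.mem_divisors] at h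
    simp only [Finset.mem_filter, Finset.mem_product, Finset.mem_Icc]
    obtain ⟨hm, ⟨e, rfl⟩, hne⟩ := h
    have hd : 0 < d := Nat.pos_of_ne_zero (by rintro rfl; simp at hne)
    have he : 0 < e := Nat.pos_of_ne_zero (by rintro rfl; simp at hne)
    rw [Nat.mul_div_cancel_left e hd]
    have h5 : d ≤ d * e := Nat.le_mul_of_pos_right d he
    have h6 : e ≤ d * e := Nat.le_mul_of_pos_left e hd
    have h7 : e * d = d * e := mul_comm _ _
    omega
  · rintro ⟨k, j⟩ h
    simp only [Finset.mem_filter, Finset.mem_product, Finset.mem_Icc] at h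
    simp only [Prod.mk.injEq, true_and]
    exact Nat.mul_div_cancel j (by omega)
  · rintro ⟨m, d⟩ h
    simp only [Finset.mem_sigma, Finset.mem_range, Nat.mem_divisors] at h
    simp only [Sigma.mk.injEq, heq_eq_eq, and_true]
    exact Nat.div_mul_cancel h.2.1
  · rintro ⟨k, j⟩ h
    rfl

lemma pp_solves : Solves sg pp := by
  intro n
  rw [Finset.Nat.sum_antidiagonal_eq_sum_range_succ_mk]
  have h := congrArg (fun t : ℕ => (t : ℝ)) (nat_rec n)
  push_cast at h
  exact h

lemma sg_zero : sg 0 = 0 := by simp [sg]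

lemma sg_nonneg (k : ℕ) : 0 ≤ sg k := Finset.sum_nonneg fun d _ => by positivity

lemma sg_ge (k : ℕ) : (k : ℝ) ≤ sg k := by
  rcases Nat.eq_zero_or_pos k with rfl | hk
  · simp [sg]
  · exact Finset.single_le_sum (f := fun d : ℕ => (d : ℝ)) (fun d _ => by positivity)
      (Nat.mem_divisors_self k hk.ne')

lemma sum_sg_le (m : ℕ) : ∑ k ∈ range (m + 1), sg k ≤ (m : ℝ) ^ 2 := by
  have h : ∑ k ∈ range (m + 1), ∑ d ∈ k.divisors, d ≤ m ^ 2 := by
    have h1 : ∀ k ∈ range (m + 1), ∑ d ∈ k.divisors, d =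
        ∑ d ∈ Icc 1 m, if k ∈ (Ioc 0 m).filter (fun x => d ∣ x) then d else 0 := by
      intro k hk
      rw [Finset.mem_range] at hk
      rw [← Finset.sum_filter]
      refine Finset.sum_congr ?_ fun _ _ => rfl
      ext d
      simp only [Nat.mem_divisors, Finset.mem_filter, Finset.mem_Icc, Finset.mem_Ioc]
      constructor
      · rintro ⟨h2, h3⟩
        have := Nat.le_of_dvd (Nat.pos_of_ne_zero h3) h2
        have := Nat.pos_of_dvd_of_pos h2 (Nat.pos_of_ne_zero h3)
        refine ⟨⟨this, by omega⟩, ⟨by omega, by omega⟩, h2⟩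
      · rintro ⟨_, ⟨h2, _⟩, h3⟩
        exact ⟨h3, by omega⟩
    rw [Finset.sum_congr rfl h1, Finset.sum_comm]
    calc ∑ d ∈ Icc 1 m, ∑ k ∈ range (m + 1),
          (if k ∈ (Ioc 0 m).filter (fun x => d ∣ x) then d else 0)
        ≤ ∑ d ∈ Icc 1 m, m := by
          refine Finset.sum_le_sum fun d _ => ?_
          rw [← Finset.sum_filter, Finset.sum_const, smul_eq_mul]
          have h2 : ((range (m + 1)).filter fun k => k ∈ (Ioc 0 m).filter (fun x => d ∣ x)).card
              ≤ m / d := by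
            rw [← Nat.Ioc_filter_dvd_card_eq_div m d]
            apply Finset.card_le_card
            intro k hk
            exact (Finset.mem_filter.mp hk).2
          exact (Nat.mul_le_mul_right d h2).trans (Nat.div_mul_le_self m d)
      _ = m ^ 2 := by simp [pow_two]
  have h2 : ((∑ k ∈ range (m + 1), ∑ d ∈ k.divisors, d : ℕ) : ℝ) ≤ ((m ^ 2 : ℕ) : ℝ) := by
    exact_mod_cast h
  push_cast at h2
  exact h2

lemma hasSum_choose_geom (r : ℕ) {x : ℝ} (hx0 : 0 < x) (hx1 : x < 1) :
    HasSum (fun n : ℕ => ((n + r).choose r : ℝ) * x ^ n) (1 / (1 - x) ^ (r + 1)) := by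
  have hn : ‖x‖ < 1 := by rw [Real.norm_eq_abs, abs_of_pos hx0]; exact hx1
  have h1 := summable_choose_mul_geometric_of_norm_lt_one (R := ℝ) r hn
  have h2 := tsum_choose_mul_geometric_of_norm_lt_one (𝕜 := ℝ) r hn
  rw [← h2]
  exact h1.hasSum

/-- Abel summation bound. -/
lemma abel_bound {g : ℕ → ℝ} {c : ℝ} (r : ℕ) (hg : ∀ k, 0 ≤ g k)
    (h : ∀ m, ∑ k ∈ range (m + 1), g k ≤ c * ((m + r).choose r : ℝ)) {x : ℝ} (hx0 : 0 < x)
    (hx1 : x < 1) : Summable (fun k => g k * x ^ k) ∧ ∑' k, g k * x ^ k ≤ c / (1 - x) ^ r := by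
  have hu : 0 < 1 - x := by linarith
  have hs0 := hasSum_choose_geom r hx0 hx1
  have hs : Summable (fun k => g k * x ^ k) := by
    refine Summable.of_nonneg_of_le (fun k => mul_nonneg (hg k) (by positivity)) (fun k => ?_)
      (hs0.summable.mul_left c)
    rw [← mul_assoc]
    refine mul_le_mul_of_nonneg_right ?_ (by positivity)
    exact (Finset.single_le_sum (f := g) (fun i _ => hg i) (by simp)).trans (h k)
  refine ⟨hs, ?_⟩
  have hgeo := summable_geometric_of_lt_one hx0.le hx1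
  have h1 := tsum_mul_tsum_eq_tsum_sum_antidiagonal_of_summable_norm hs.norm hgeo.norm
  have h2 := (summable_norm_sum_mul_antidiagonal_of_summable_norm hs.norm hgeo.norm).of_norm
  rw [tsum_geometric_of_lt_one hx0.le hx1] at h1
  have h3 : ∑' n, ∑ kl ∈ antidiagonal n, g kl.1 * x ^ kl.1 * x ^ kl.2 ≤
      ∑' n : ℕ, c * (((n + r).choose r : ℝ) * x ^ n) := by
    refine Summable.tsum_le_tsum (fun n => ?_) h2 (hs0.summable.mul_left c)
    have e : ∑ kl ∈ antidiagonal n, g kl.1 * x ^ kl.1 * x ^ kl.2 =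
        (∑ k ∈ range (n + 1), g k) * x ^ n := by
      rw [Finset.Nat.sum_antidiagonal_eq_sum_range_succ_mk, Finset.sum_mul]
      refine Finset.sum_congr rfl fun k hk => ?_
      rw [Finset.mem_range] at hk
      rw [mul_assoc, ← pow_add]
      congr 2; omega
    rw [e, ← mul_assoc]
    exact mul_le_mul_of_nonneg_right (h n) (by positivity)
  rw [← h1, tsum_mul_left, hs0.tsum_eq] at h3
  rw [le_div_iff₀ (by positivity)]
  have h4 := mul_le_mul_of_nonneg_right h3 hu.le
  calc (∑' k, g k * x ^ k) * (1 - x) ^ r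
      = (∑' k, g k * x ^ k) * (1 - x)⁻¹ * (1 - x) * (1 - x) ^ r := by
        field_simp
    _ ≤ c * (1 / (1 - x) ^ (r + 1)) * (1 - x) * (1 - x) ^ r := by
        refine mul_le_mul_of_nonneg_right h4 (by positivity)
    _ = c := by
        rw [pow_succ]; field_simp

lemma choose_two_real (m : ℕ) : ((m + 2).choose 2 : ℝ) = ((m : ℝ) + 2) * (m + 1) / 2 := by
  have h := Nat.cast_choose_two (K := ℝ) (m + 2)
  rw [h]; push_cast; ring

lemma choose_three_real (m : ℕ) :
    ((m + 3).choose 3 : ℝ) = ((m : ℝ) + 3) * (m + 2) * (m + 1) / 6 := by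
  have h := Nat.add_one_mul_choose_eq (m + 2) 2
  have h2 : (((m + 3).choose 3 : ℕ) : ℝ) * 3 = ((m : ℝ) + 3) * ((m + 2).choose 2 : ℝ) := by
    have := congrArg (fun t : ℕ => (t : ℝ)) h
    push_cast at this
    rw [show m + 2 + 1 = m + 3 by rfl] at this
    norm_num at this
    linarith
  rw [choose_two_real] at h2
  linarith

lemma sg_sum {x : ℝ} (hx0 : 0 < x) (hx1 : x < 1) :
    Summable (fun k => sg k * x ^ k) ∧ ∑' k, sg k * x ^ k ≤ 2 / (1 - x) ^ 2 := by
  refine abel_bound 2 sg_nonneg (fun m => (sum_sg_le m).trans ?_) hx0 hx1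
  rw [choose_two_real]
  have : (0 : ℝ) ≤ m := by positivity
  nlinarith

lemma ksg_sum {x : ℝ} (hx0 : 0 < x) (hx1 : x < 1) :
    Summable (fun k : ℕ => ((k : ℝ) * sg k) * x ^ k) ∧
      ∑' k : ℕ, ((k : ℝ) * sg k) * x ^ k ≤ 6 / (1 - x) ^ 3 := by
  refine abel_bound 3 (fun k => mul_nonneg (by positivity) (sg_nonneg k)) (fun m => ?_) hx0 hx1
  have h1 : ∑ k ∈ range (m + 1), (k : ℝ) * sg k ≤ m * ∑ k ∈ range (m + 1), sg k := by
    rw [Finset.mul_sum]
    refine Finset.sum_le_sum fun k hk => ?_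
    rw [Finset.mem_range] at hk
    refine mul_le_mul_of_nonneg_right ?_ (sg_nonneg k)
    exact_mod_cast (by omega : k ≤ m)
  have hm : (0 : ℝ) ≤ m := by positivity
  have h2 : (m : ℝ) * ∑ k ∈ range (m + 1), sg k ≤ m * (m : ℝ) ^ 2 :=
    mul_le_mul_of_nonneg_left (sum_sg_le m) hm
  rw [choose_three_real]
  have h3 : (m : ℝ) * (m : ℝ) ^ 2 ≤ ((m : ℝ) + 3) * (m + 2) * (m + 1) := by
    have e : ((m : ℝ) + 3) * (m + 2) * (m + 1) = m * m ^ 2 + (6 * m ^ 2 + 11 * m + 6) := by ring
    have h4 : (0 : ℝ) ≤ 6 * (m : ℝ) ^ 2 + 11 * m + 6 := by positivity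
    rw [e]; linarith
  linarith

/-- Weights of the complementary factor. -/
noncomputable def wc (k : ℕ) : ℝ := sg k - k

lemma wc_nonneg (k : ℕ) : 0 ≤ wc k := sub_nonneg.mpr (sg_ge k)

lemma wc_zero : wc 0 = 0 := by simp [wc, sg_zero]

lemma pp_eq_conv : pp = conv (sol wc) ell := by
  have h1 : Solves sg (conv (sol wc) ell) := by
    have h := (sol_solves wc wc_zero).conv ell_solves
    have e : (fun k => wc k + (k : ℝ)) = sg := by funext k; simp [wc]
    rwa [e] at h
  refine pp_solves.unique sg_zero h1 ?_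
  simp [conv, sol_zero, ell_zero, pp]

lemma pp_eq_sum (m : ℕ) (x : ℝ) : pp m * x ^ m =
    ∑ p ∈ antidiagonal m, (sol wc p.1 * x ^ p.1) * (ell p.2 * x ^ p.2) := by
  rw [pp_eq_conv, conv, Finset.sum_mul]
  refine Finset.sum_congr rfl fun p hp => ?_
  rw [HasAntidiagonal.mem_antidiagonal] at hp
  rw [← hp, pow_add]; ring

/-- The saddle point. -/
lemma exists_saddle (n : ℕ) (hn : 8 ≤ n) : ∃ x : ℝ, 1 / 2 ≤ x ∧ x < 1 ∧
    ∑' k, sg k * x ^ k = n := by
  have hn0 : (0 : ℝ) < n := by
    have : 0 < n := by omega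
    exact_mod_cast this
  have hsn : 0 < √(n : ℝ) := Real.sqrt_pos.mpr hn0
  have hsn2 : 2 ≤ √(n : ℝ) := by
    apply Real.le_sqrt_of_sq_le
    have : (8 : ℝ) ≤ n := by exact_mod_cast hn
    linarith
  set y : ℝ := 1 - 1 / (2 * √n) with hy
  have hy1 : y < 1 := by
    have : 0 < 1 / (2 * √(n : ℝ)) := by positivity
    rw [hy]; linarith
  have hy2 : 1 / 2 ≤ y := by
    have : 1 / (2 * √(n : ℝ)) ≤ 1 / 2 := by
      apply one_div_le_one_div_of_le (by norm_num); linarith
    rw [hy]; linarith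
  have hcont : ContinuousOn (fun x : ℝ => ∑' k, sg k * x ^ k) (Set.Icc (1 / 2) y) := by
    refine continuousOn_tsum (u := fun k => sg k * y ^ k) (fun k => by fun_prop)
      (sg_sum (by linarith) hy1).1 (fun k x hx => ?_)
    rw [norm_mul, norm_pow, Real.norm_of_nonneg (sg_nonneg k)]
    refine mul_le_mul_of_nonneg_left ?_ (sg_nonneg k)
    refine pow_le_pow_left₀ (norm_nonneg _) ?_ k
    rw [Real.norm_of_nonneg (by linarith [hx.1])]
    exact hx.2
  have hivt := intermediate_value_Icc hy2 hcont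
  have hlow : ∑' k, sg k * (1 / 2 : ℝ) ^ k ≤ n := by
    refine (sg_sum (by norm_num) (by norm_num)).2.trans ?_
    norm_num
    exact_mod_cast hn
  have hupp : (n : ℝ) ≤ ∑' k, sg k * y ^ k := by
    have h1 : ∑' k : ℕ, (k : ℝ) * y ^ k ≤ ∑' k, sg k * y ^ k := by
      refine Summable.tsum_le_tsum (fun k => ?_) ?_ (sg_sum (by linarith) hy1).1
      · exact mul_le_mul_of_nonneg_right (sg_ge k) (pow_nonneg (by linarith) k)
      · exact (hasSum_coe_mul_geometric_of_norm_lt_one (𝕜 := ℝ)
          (by rw [Real.norm_of_nonneg (by linarith)]; exact hy1)).summable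
    rw [tsum_coe_mul_geometric_of_norm_lt_one (𝕜 := ℝ)
      (by rw [Real.norm_of_nonneg (by linarith)]; exact hy1)] at h1
    refine le_trans ?_ h1
    have e : 1 - y = 1 / (2 * √n) := by rw [hy]; ring
    rw [e, div_pow, mul_pow, Real.sq_sqrt hn0.le, one_pow, div_div_eq_mul_div, div_one]
    nlinarith
  obtain ⟨x, hx, hxe⟩ := hivt ⟨hlow, hupp⟩
  exact ⟨x, hx.1, lt_of_le_of_lt hx.2 hy1, hxe⟩

lemma saddle_bounds {n : ℕ} {x : ℝ} (hx0 : 1 / 2 ≤ x) (hx1 : x < 1)
    (h : ∑' k, sg k * x ^ k = n) : x / (1 - x) ^ 2 ≤ n ∧ (n : ℝ) ≤ 2 / (1 - x) ^ 2 := by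
  constructor
  · rw [← h, ← tsum_coe_mul_geometric_of_norm_lt_one (𝕜 := ℝ)
      (by rw [Real.norm_of_nonneg (by linarith)]; exact hx1)]
    refine Summable.tsum_le_tsum (fun k => ?_) ?_ (sg_sum (by linarith) hx1).1
    · exact mul_le_mul_of_nonneg_right (sg_ge k) (by positivity)
    · exact (hasSum_coe_mul_geometric_of_norm_lt_one (𝕜 := ℝ)
        (by rw [Real.norm_of_nonneg (by linarith)]; exact hx1)).summable
  · rw [← h]
    exact (sg_sum (by linarith) hx1).2

/-- Two-sided local estimate: at the saddle point `x` of `n`, `p(m) x^m ≤ C p(n) x^n`. -/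
theorem main_ratio : ∃ C : ℝ, 1 ≤ C ∧ ∃ n₀ : ℕ, ∀ n : ℕ, n₀ ≤ n → ∃ x : ℝ, 1 / 2 ≤ x ∧ x < 1 ∧
    x / (1 - x) ^ 2 ≤ n ∧ (n : ℝ) ≤ 2 / (1 - x) ^ 2 ∧
    ∀ m : ℕ, pp m * x ^ m ≤ C * (pp n * x ^ n) := by
  obtain ⟨c, hc, hlow⟩ := ell_lower 4 (by norm_num)
  refine ⟨max 1 (16 / c), le_max_left _ _, 100000, fun n hn => ?_⟩
  obtain ⟨x, hx0, hx1, hx⟩ := exists_saddle n (by omega)
  obtain ⟨hb1, hb2⟩ := saddle_bounds hx0 hx1 hx
  refine ⟨x, hx0, hx1, hb1, hb2, fun m => ?_⟩
  set u := 1 - x with hu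
  have hu0 : 0 < u := by rw [hu]; linarith
  have hsu : 0 < √u := Real.sqrt_pos.mpr hu0
  have hsq : √u * √u = u := Real.mul_self_sqrt hu0.le
  have hxu : x = 1 - u := by rw [hu]; ring
  have hxpos : 0 < x := by linarith
  -- smallness of u
  have hsmall : 4 * √u < 1 / 2 := by
    have h1 : (100000 : ℝ) ≤ n := by exact_mod_cast hn
    have h2 : (100000 : ℝ) ≤ 2 / u ^ 2 := h1.trans hb2
    rw [le_div_iff₀ (by positivity)] at h2
    have h3 : u < 1 / 100 := by
      by_contra h4
      push Not at h4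
      nlinarith
    have h5 : √u < 1 / 10 := by
      rw [Real.sqrt_lt' (by norm_num)]; linarith
    linarith
  set E := Real.exp (x / u) with hE
  have hEpos : 0 < E := Real.exp_pos _
  -- complementary factor
  set f : ℕ → ℝ := fun i => sol wc i * x ^ i with hf
  have hf0 : ∀ i, 0 ≤ f i := fun i => mul_nonneg (sol_nonneg wc wc_nonneg i) (by positivity)
  have hwx : ∀ y : ℝ, 0 < y → y < 1 → Summable fun k => wc k * y ^ k := by
    intro y hy0 hy1
    refine Summable.of_nonneg_of_le (fun k => mul_nonneg (wc_nonneg k) (by positivity)) (fun k => ?_)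
      (sg_sum hy0 hy1).1
    refine mul_le_mul_of_nonneg_right ?_ (by positivity)
    unfold wc
    have : (0 : ℝ) ≤ k := by positivity
    linarith
  have hsf : Summable f := (sol_solves wc wc_zero).summable wc_nonneg wc_zero
    (sol_nonneg wc wc_nonneg) hwx hxpos hx1
  set A := ∑' i, f i with hA
  have hA0 : 0 ≤ A := tsum_nonneg hf0
  have hsol : Solves (fun k => wc k * x ^ k) f := (sol_solves wc wc_zero).scale x
  have hw0 : ∀ k, 0 ≤ wc k * x ^ k := fun k => mul_nonneg (wc_nonneg k) (by positivity)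
  have hsw := hwx x hxpos hx1
  have hnorm : ‖x‖ < 1 := by rw [Real.norm_of_nonneg hxpos.le]; exact hx1
  have hmean : ∑' k, wc k * x ^ k = n - x / u ^ 2 := by
    have h1 : ∀ k : ℕ, wc k * x ^ k = sg k * x ^ k - (k : ℝ) * x ^ k := by
      intro k; unfold wc; ring
    rw [tsum_congr h1, Summable.tsum_sub (sg_sum hxpos hx1).1
      (hasSum_coe_mul_geometric_of_norm_lt_one (𝕜 := ℝ) hnorm).summable, hx,
      tsum_coe_mul_geometric_of_norm_lt_one (𝕜 := ℝ) hnorm]
  have hkle : ∀ k : ℕ, (k : ℝ) * (wc k * x ^ k) ≤ ((k : ℝ) * sg k) * x ^ k := by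
    intro k
    rw [← mul_assoc]
    refine mul_le_mul_of_nonneg_right (mul_le_mul_of_nonneg_left ?_ (by positivity)) (by positivity)
    unfold wc
    have : (0 : ℝ) ≤ k := by positivity
    linarith
  have hskw : Summable fun k : ℕ => (k : ℝ) * (wc k * x ^ k) :=
    Summable.of_nonneg_of_le (fun k => mul_nonneg (by positivity) (hw0 k)) hkle
      (ksg_sum hxpos hx1).1
  have hvar : ∑' k : ℕ, (k : ℝ) * (wc k * x ^ k) ≤ 6 / u ^ 3 :=
    (Summable.tsum_le_tsum hkle hskw (ksg_sum hxpos hx1).1).trans (ksg_sum hxpos hx1).2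
  -- upper bound
  have hup : ∀ m, pp m * x ^ m ≤ 8 * (u * √u) * E * A := by
    intro m
    rw [pp_eq_sum]
    calc ∑ p ∈ antidiagonal m, (sol wc p.1 * x ^ p.1) * (ell p.2 * x ^ p.2)
        ≤ ∑ p ∈ antidiagonal m, f p.1 * (8 * (u * √u) * E) :=
          Finset.sum_le_sum fun p _ => mul_le_mul_of_nonneg_left (ell_upper hx0 hx1 p.2) (hf0 p.1)
      _ = (∑ i ∈ range (m + 1), f i) * (8 * (u * √u) * E) := by
          rw [← Finset.sum_mul, Finset.Nat.sum_antidiagonal_eq_sum_range_succ_mk]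
      _ ≤ A * (8 * (u * √u) * E) := by
          refine mul_le_mul_of_nonneg_right ?_ (by positivity)
          exact hsf.sum_le_tsum _ (fun i _ => hf0 i)
      _ = _ := by ring
  -- lower bound
  set R : ℝ := 4 / (u * √u) with hR
  have hR0 : 0 < R := by positivity
  set s : Set ℕ := {i : ℕ | R ≤ |(i : ℝ) - ∑' k, wc k * x ^ k|} with hs
  have hcheb := hsol.chebyshev hw0 hf0 hsw hsf hskw hR0 s (fun i hi => hi)
  have hR2 : R ^ 2 = 16 / u ^ 3 := by
    rw [hR, div_pow, mul_pow, pow_two (√u), hsq]; ring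
  have hcheb2 : ∑' i, s.indicator f i ≤ 1 / 2 * A := by
    refine hcheb.trans (mul_le_mul_of_nonneg_right ?_ hA0)
    rw [hR2]
    calc (∑' k : ℕ, (k : ℝ) * (wc k * x ^ k)) / (16 / u ^ 3) ≤ (6 / u ^ 3) / (16 / u ^ 3) := by
          gcongr
      _ ≤ 1 / 2 := by
          rw [div_div_div_cancel_right₀ (by positivity)]; norm_num
  have hgood : 1 / 2 * A ≤ ∑' i, sᶜ.indicator f i := by
    have h1 := (hsf.indicator s).tsum_add (hsf.indicator sᶜ)
    have h2 : ∀ i, s.indicator f i + sᶜ.indicator f i = f i := fun i =>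
      Set.indicator_self_add_compl_apply s f i
    rw [tsum_congr h2] at h1
    linarith
  have hmem : ∀ i : ℕ, i ∈ sᶜ → i ≤ n ∧ |((n - i : ℕ) : ℝ) - x / u ^ 2| ≤ R := by
    intro i hi
    have hi' : |(i : ℝ) - (n - x / u ^ 2)| < R := by
      rw [hs, Set.mem_compl_iff, Set.mem_ofPred_eq, hmean] at hi
      push Not at hi
      exact hi
    have hle : i ≤ n := by
      have h1 := (abs_lt.mp hi').2
      have h2 : R ≤ x / u ^ 2 := by
        rw [hR, div_le_div_iff₀ (by positivity) (by positivity)]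
        have h3 : 4 * u ^ 2 = (4 * √u) * (u * √u) := by
          rw [pow_two]; nth_rewrite 2 [← hsq]; ring
        rw [h3]
        exact mul_le_mul_of_nonneg_right (by linarith) (by positivity)
      have h4 : (i : ℝ) < n := by linarith
      exact (Nat.cast_lt.mp h4).le
    refine ⟨hle, ?_⟩
    rw [Nat.cast_sub hle, ← abs_neg]
    refine le_of_eq_of_le ?_ hi'.le
    congr 1; ring
  have hlo : c * (u * √u) * E * (1 / 2 * A) ≤ pp n * x ^ n := by
    rw [pp_eq_sum]
    have h1 : ∑' i, sᶜ.indicator f i = ∑ i ∈ range (n + 1), sᶜ.indicator f i := by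
      refine tsum_eq_sum fun i hi => ?_
      by_cases h : i ∈ sᶜ
      · exact absurd (Finset.mem_range.mpr (by have := (hmem i h).1; omega)) hi
      · exact Set.indicator_of_notMem h f
    rw [h1] at hgood
    calc c * (u * √u) * E * (1 / 2 * A)
        ≤ c * (u * √u) * E * ∑ i ∈ range (n + 1), sᶜ.indicator f i := by gcongr
      _ = ∑ i ∈ range (n + 1), sᶜ.indicator f i * (c * (u * √u) * E) := by
          rw [Finset.mul_sum]; exact Finset.sum_congr rfl fun i _ => mul_comm _ _
      _ ≤ ∑ i ∈ range (n + 1), f i * (ell (n - i) * x ^ (n - i)) := by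
          refine Finset.sum_le_sum fun i _ => ?_
          by_cases h : i ∈ sᶜ
          · rw [Set.indicator_of_mem h]
            exact mul_le_mul_of_nonneg_left (hlow x hx0 hx1 hsmall (n - i) (hmem i h).2) (hf0 i)
          · rw [Set.indicator_of_notMem h, zero_mul]
            exact mul_nonneg (hf0 i) (mul_nonneg (ell_nonneg _) (by positivity))
      _ = ∑ p ∈ antidiagonal n, (sol wc p.1 * x ^ p.1) * (ell p.2 * x ^ p.2) := by
          rw [Finset.Nat.sum_antidiagonal_eq_sum_range_succ_mk]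
  have hfin : 8 * (u * √u) * E * A = 16 / c * (c * (u * √u) * E * (1 / 2 * A)) := by
    field_simp; ring
  calc pp m * x ^ m ≤ 8 * (u * √u) * E * A := hup m
    _ = 16 / c * (c * (u * √u) * E * (1 / 2 * A)) := hfin
    _ ≤ 16 / c * (pp n * x ^ n) := by gcongr
    _ ≤ max 1 (16 / c) * (pp n * x ^ n) := by
        refine mul_le_mul_of_nonneg_right (le_max_right _ _) ?_
        have := pp_pos n
        positivity

end MP024b77
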