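import Mathlib
import Pool.Agent.Lib.MP_024b77_al.Core
import Pool.Agent.Lib.MP_024b77_al.Part

/-!
# Upper bound for the density of zeros of type II
-/

set_option autoImplicit false

namespace MP024b77

open Finset

open scoped Classical in
/-- Number of `t`-cores of `n`. -/
noncomputable def cc (t n : ℕ) : ℝ :=
  (((Finset.univ : Finset n.Partition).filter fun lam => IsCore t lam).card : ℝ)

lemma cc_nonneg (t n : ℕ) : 0 ≤ cc t n := by unfold cc; positivity

lemma cc_le (t n : ℕ) : cc t n ≤ pp n := by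
  classical
  unfold cc pp
  have h := Finset.card_filter_le (Finset.univ : Finset n.Partition) (fun lam => IsCore t lam)
  rw [Finset.card_univ] at h
  have h2 : ((Finset.univ : Finset n.Partition).filter fun lam => IsCore t lam).card ≤
    Fintype.card n.Partition := h
  have h3 : (((Finset.univ : Finset n.Partition).filter fun lam => IsCore t lam).card : ℝ) ≤
    (Fintype.card n.Partition : ℝ) := by exact_mod_cast h2
  convert h3

lemma cc_push (t n w : ℕ) (ht : 1 ≤ t) : cc t n * ((t + w - 1).choose w : ℝ) ≤ pp (n + w * t) := by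
  unfold cc pp
  exact_mod_cast card_core_le n t w ht

lemma one_core {n : ℕ} (hn : 1 ≤ n) : cc 1 n = 0 := by
  classical
  unfold cc
  rw [Nat.cast_eq_zero, Finset.card_eq_zero, Finset.filter_eq_empty_iff]
  intro lam _ h
  have h1 : 1 ≤ row lam 0 := by
    by_contra h2
    push Not at h2
    have h3 : ∀ i, row lam i = 0 := fun i => by
      have := row_anti lam (Nat.zero_le i)
      omega
    have h4 := sum_rows lam (le_refl n)
    rw [Finset.sum_eq_zero (fun i _ => h3 i)] at h4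
    omega
  exact h 0 1 le_rfl h1 (one_dvd _)

/-- Partitions of `n` having `t` as a part. -/
lemma card_part (n t : ℕ) (ht : 1 ≤ t) (htn : t ≤ n) :
    (((Finset.univ : Finset n.Partition).filter fun mu => t ∈ mu.parts).card : ℝ) = pp (n - t) := by
  unfold pp
  rw [← Fintype.card_subtype]
  exact_mod_cast Fintype.card_congr (Nat.Partition.partitionWithPartEquiv ht htn)

/-- Union bound. -/
lemma zerosII_le {n : ℕ} :
    ((zerosII n).card : ℝ) ≤ ∑ t ∈ Icc 1 n, pp (n - t) * cc t n := by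
  classical
  have h1 : zerosII n ⊆ (Icc 1 n).biUnion fun t =>
      ((Finset.univ : Finset n.Partition).filter fun lam => IsCore t lam) ×ˢ
      ((Finset.univ : Finset n.Partition).filter fun mu => t ∈ mu.parts) := by
    rintro ⟨lam, mu⟩ h
    unfold zerosII at h
    rw [Finset.mem_filter] at h
    obtain ⟨_, t, ht, hc⟩ := h
    rw [Finset.mem_biUnion]
    refine ⟨t, Finset.mem_Icc.mpr ⟨mu.parts_pos ht, mu.le_of_mem_parts ht⟩, ?_⟩
    rw [Finset.mem_product]
    exact ⟨Finset.mem_filter.mpr ⟨Finset.mem_univ _, hc⟩,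
      Finset.mem_filter.mpr ⟨Finset.mem_univ _, ht⟩⟩
  have h2 := (Finset.card_le_card h1).trans Finset.card_biUnion_le
  have h3 : ((zerosII n).card : ℝ) ≤ ((∑ t ∈ Icc 1 n,
      (((Finset.univ : Finset n.Partition).filter fun lam => IsCore t lam) ×ˢ
      ((Finset.univ : Finset n.Partition).filter fun mu => t ∈ mu.parts)).card : ℕ) : ℝ) := by
    exact_mod_cast h2
  refine h3.trans (le_of_eq ?_)
  push_cast
  refine Finset.sum_congr rfl fun t ht => ?_
  rw [Finset.mem_Icc] at ht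
  rw [Finset.card_product, Nat.cast_mul, mul_comm]
  have h4 := card_part n t ht.1 ht.2
  have h5 : (((Finset.univ : Finset n.Partition).filter fun mu => t ∈ mu.parts).card : ℝ) =
    pp (n - t) := by convert h4
  rw [h5]
  unfold cc
  congr 2

lemma zI_le_zII {n : ℕ} (hn : 1 ≤ n) : zI n ≤ zII n := by
  classical
  unfold zI zII
  have h : zerosI n ⊆ zerosII n := by
    rintro ⟨lam, mu⟩ h
    unfold zerosI at h
    unfold zerosII
    rw [Finset.mem_filter] at h ⊢
    refine ⟨Finset.mem_univ _, row mu 0, ?_, h.2⟩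
    rw [← filter_rows mu (le_refl n), Multiset.mem_filter]
    refine ⟨Multiset.mem_map_of_mem _ (by rw [Multiset.mem_range]; omega), ?_⟩
    intro h2
    have h3 : ∀ i, row mu i = 0 := fun i => by
      have := row_anti mu (Nat.zero_le i)
      omega
    have h4 := sum_rows mu (le_refl n)
    rw [Finset.sum_eq_zero (fun i _ => h3 i)] at h4
    omega
  gcongr

lemma zI_nonneg (n : ℕ) : 0 ≤ zI n := by unfold zI; positivity

lemma zII_nonneg (n : ℕ) : 0 ≤ zII n := by unfold zII; positivity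

lemma zII_le_sum {n : ℕ} : zII n ≤ ∑ t ∈ Icc 1 n, (pp (n - t) / pp n) * (cc t n / pp n) := by
  have hp := pp_pos n
  unfold zII
  have h := zerosII_le (n := n)
  rw [show (Fintype.card n.Partition : ℝ) = pp n by rfl, div_le_iff₀ (by positivity),
    Finset.sum_mul]
  refine h.trans (le_of_eq (Finset.sum_congr rfl fun t _ => ?_))
  field_simp

lemma zII_le_one (n : ℕ) : zII n ≤ 1 := by
  have hp := pp_pos n
  unfold zII
  rw [show (Fintype.card n.Partition : ℝ) = pp n by rfl, div_le_one (by positivity)]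
  have h := Finset.card_le_univ (zerosII n)
  rw [Fintype.card_prod] at h
  have h2 : ((zerosII n).card : ℝ) ≤ ((Fintype.card n.Partition * Fintype.card n.Partition : ℕ) : ℝ) := by
    exact_mod_cast h
  push_cast at h2
  rw [pow_two]
  exact h2

/-! ### Elementary sums -/

/-- Sum of `1/t²` over `t > T`. -/
lemma sum_inv_sq_le {T : ℕ} (hT : 1 ≤ T) (S : Finset ℕ) (hS : ∀ t ∈ S, T < t) :
    ∑ t ∈ S, 1 / (t : ℝ) ^ 2 ≤ 1 / (T : ℝ) := by
  obtain ⟨M, hM⟩ : ∃ M, ∀ t ∈ S, t ≤ M := ⟨S.sup id, fun t ht => Finset.le_sup (f := id) ht⟩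
  have h1 : ∑ t ∈ S, 1 / (t : ℝ) ^ 2 ≤ ∑ t ∈ Ioc T (max T M), 1 / (t : ℝ) ^ 2 := by
    refine Finset.sum_le_sum_of_subset_of_nonneg (fun t ht => ?_) (fun _ _ _ => by positivity)
    rw [Finset.mem_Ioc]
    exact ⟨hS t ht, (hM t ht).trans (le_max_right _ _)⟩
  have h2 := sum_Ioc_inv_sq_le_sub (α := ℝ) (k := T) (n := max T M) (by omega) (le_max_left _ _)
  refine h1.trans ?_
  have h3 : ∑ t ∈ Ioc T (max T M), 1 / (t : ℝ) ^ 2 = ∑ i ∈ Ioc T (max T M), ((i : ℝ) ^ 2)⁻¹ :=
    Finset.sum_congr rfl fun t _ => one_div _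
  rw [h3, one_div]
  have h4 : (0 : ℝ) ≤ (((max T M : ℕ)) : ℝ)⁻¹ := by positivity
  linarith

/-- Sum of `x^t` over `t > y`. -/
lemma sum_tail_le {s : ℝ} (hs : 0 < s) {y : ℝ} (hy : 0 ≤ y) (S : Finset ℕ)
    (hS : ∀ t ∈ S, y < t) :
    ∑ t ∈ S, Real.exp (-s * t) ≤ Real.exp (-s * y) / (1 - Real.exp (-s)) := by
  have hx0 : 0 < Real.exp (-s) := Real.exp_pos _
  have hx1 : Real.exp (-s) < 1 := by rw [Real.exp_lt_one_iff]; linarith
  set x := Real.exp (-s) with hx
  have hu : 0 < 1 - x := by linarith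
  have e : ∀ t : ℕ, Real.exp (-s * t) = x ^ t := by
    intro t; rw [hx, ← Real.exp_nat_mul]; ring_nf
  have h1 : ∑ t ∈ S, Real.exp (-s * t) = ∑ t ∈ S, x ^ t := Finset.sum_congr rfl fun t _ => e t
  rw [h1]
  set T := ⌊y⌋₊ with hT
  have hyT : y < (T : ℝ) + 1 := Nat.lt_floor_add_one y
  have h2 : ∑ t ∈ S, x ^ t = ∑ t ∈ S.image (fun t => t - (T + 1)), x ^ (T + 1) * x ^ t := by
    rw [Finset.sum_image]
    · refine Finset.sum_congr rfl fun t ht => ?_
      have h3 : T < t := by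
        rw [hT, Nat.floor_lt hy]; exact hS t ht
      rw [← pow_add]; congr 1; omega
    · intro a ha b hb hab
      have h3 : T < a := by rw [hT, Nat.floor_lt hy]; exact hS a ha
      have h4 : T < b := by rw [hT, Nat.floor_lt hy]; exact hS b hb
      simp only at hab
      omega
  rw [h2, ← Finset.mul_sum]
  have h3 : ∑ t ∈ S.image (fun t => t - (T + 1)), x ^ t ≤ (1 - x)⁻¹ := by
    rw [← tsum_geometric_of_lt_one hx0.le hx1]
    exact (summable_geometric_of_lt_one hx0.le hx1).sum_le_tsum _ (fun _ _ => by positivity)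
  have h4 : x ^ (T + 1) ≤ Real.exp (-s * y) := by
    rw [← e]
    apply Real.exp_le_exp.mpr
    push_cast
    nlinarith
  rw [div_eq_mul_inv]
  exact mul_le_mul h4 h3 (Finset.sum_nonneg fun _ _ => by positivity) (Real.exp_pos _).le

/-- Sum of `x^{-t}` over `t ≤ y`. -/
lemma sum_head_le {s : ℝ} (hs : 0 < s) {y : ℝ} (S : Finset ℕ) (hS : ∀ t ∈ S, (t : ℝ) ≤ y) :
    ∑ t ∈ S, Real.exp (s * t) ≤ Real.exp (s * y) / (1 - Real.exp (-s)) := by
  have hx0 : 0 < Real.exp (-s) := Real.exp_pos _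
  have hx1 : Real.exp (-s) < 1 := by rw [Real.exp_lt_one_iff]; linarith
  have hu : 0 < 1 - Real.exp (-s) := by linarith
  rcases S.eq_empty_or_nonempty with rfl | ⟨t₀, ht₀⟩
  · simp only [Finset.sum_empty]; positivity
  have hy0 : 0 ≤ y := le_trans (by positivity) (hS t₀ ht₀)
  set T := ⌊y⌋₊ with hT
  have hTy : (T : ℝ) ≤ y := Nat.floor_le hy0
  set x := Real.exp (-s) with hx
  have e : ∀ t ∈ S, Real.exp (s * t) = Real.exp (s * T) * x ^ (T - t) := by
    intro t ht
    have h3 : t ≤ T := Nat.le_floor (hS t ht)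
    rw [hx, ← Real.exp_nat_mul, ← Real.exp_add, Nat.cast_sub h3]
    congr 1; ring
  rw [Finset.sum_congr rfl e, ← Finset.mul_sum]
  have h2 : ∑ t ∈ S, x ^ (T - t) = ∑ t ∈ S.image (fun t => T - t), x ^ t := by
    rw [Finset.sum_image]
    intro a ha b hb hab
    have h3 : a ≤ T := Nat.le_floor (hS a ha)
    have h4 : b ≤ T := Nat.le_floor (hS b hb)
    simp only at hab
    omega
  have h3 : ∑ t ∈ S.image (fun t => T - t), x ^ t ≤ (1 - x)⁻¹ := by
    rw [← tsum_geometric_of_lt_one hx0.le hx1]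
    exact (summable_geometric_of_lt_one hx0.le hx1).sum_le_tsum _ (fun _ _ => by positivity)
  rw [h2, div_eq_mul_inv]
  have h4 : Real.exp (s * T) ≤ Real.exp (s * y) := by
    apply Real.exp_le_exp.mpr; nlinarith
  exact mul_le_mul h4 h3 (Finset.sum_nonneg fun _ _ => by positivity) (Real.exp_pos _).le

/-! ### The main estimate -/

/-- The saddle point in exponential form. -/
lemma saddle_exp : ∃ C : ℝ, 1 ≤ C ∧ ∃ n₀ : ℕ, ∀ n : ℕ, n₀ ≤ n → ∃ s : ℝ, 0 < s ∧
    √(n : ℝ) / 3 ≤ 1 / s ∧ s / 2 ≤ 1 - Real.exp (-s) ∧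
    (∀ t : ℕ, t ≤ n → pp (n - t) / pp n ≤ C * Real.exp (-s * t)) ∧
    (∀ j : ℕ, pp (n + j) / pp n ≤ C * Real.exp (s * j)) := by
  obtain ⟨C, hC, n₀, h⟩ := main_ratio
  refine ⟨C, hC, max n₀ 1, fun n hn => ?_⟩
  obtain ⟨x, hx0, hx1, _, hb2, hr⟩ := h n ((le_max_left _ _).trans hn)
  have hn1 : 1 ≤ n := (le_max_right _ _).trans hn
  have hn0 : (0 : ℝ) < n := by exact_mod_cast hn1
  have hxpos : 0 < x := by linarith
  have hu0 : 0 < 1 - x := by linarith
  set s := -Real.log x with hs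
  have hs0 : 0 < s := by rw [hs]; linarith [Real.log_neg hxpos hx1]
  have hexp : Real.exp (-s) = x := by rw [hs, neg_neg, Real.exp_log hxpos]
  have hs2 : s ≤ 2 * (1 - x) := by
    have h1 := Real.one_sub_inv_le_log_of_pos hxpos
    have h2 : x⁻¹ - 1 ≤ 2 * (1 - x) := by
      rw [inv_eq_one_div, div_sub_one hxpos.ne', div_le_iff₀ hxpos]
      nlinarith
    rw [hs]; linarith
  have hpn := pp_pos n
  have he : ∀ t : ℕ, Real.exp (-s * t) = x ^ t := by
    intro t; rw [← hexp, ← Real.exp_nat_mul]; ring_nf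
  have he' : ∀ t : ℕ, Real.exp (s * t) = (x ^ t)⁻¹ := by
    intro t; rw [← he, ← Real.exp_neg]; ring_nf
  refine ⟨s, hs0, ?_, by rw [hexp]; linarith, fun t ht => ?_, fun j => ?_⟩
  · rw [div_le_div_iff₀ (by norm_num) hs0, one_mul]
    have h1 : √(n : ℝ) * (1 - x) ≤ √2 := by
      apply Real.le_sqrt_of_sq_le
      rw [mul_pow, Real.sq_sqrt hn0.le]
      rw [le_div_iff₀ (by positivity)] at hb2
      exact hb2
    have h2 : √(2 : ℝ) ≤ 3 / 2 := by
      rw [Real.sqrt_le_left (by norm_num)]; norm_num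
    have h3 : √(n : ℝ) * s ≤ √(n : ℝ) * (2 * (1 - x)) :=
      mul_le_mul_of_nonneg_left hs2 (Real.sqrt_nonneg _)
    linarith
  · rw [he, div_le_iff₀ hpn]
    have h1 := hr (n - t)
    have h2 : x ^ n = x ^ (n - t) * x ^ t := by rw [← pow_add]; congr 1; omega
    rw [h2] at h1
    have h3 : 0 < x ^ (n - t) := by positivity
    have h4 : pp (n - t) * x ^ (n - t) ≤ (C * x ^ t * pp n) * x ^ (n - t) := by
      calc _ ≤ _ := h1
        _ = _ := by ring
    exact le_of_mul_le_mul_right h4 h3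
  · rw [he', div_le_iff₀ hpn]
    have h1 := hr (n + j)
    rw [pow_add] at h1
    have h3 : 0 < x ^ n * x ^ j := by positivity
    have h4 : pp (n + j) * (x ^ n * x ^ j) ≤ (C * (x ^ j)⁻¹ * pp n) * (x ^ n * x ^ j) := by
      calc _ ≤ _ := h1
        _ = _ := by field_simp
    exact le_of_mul_le_mul_right h4 h3

lemma choose_lower {T t : ℕ} (hT : 1 ≤ T) (ht : 3 ≤ t) :
    (T : ℝ) ^ 2 / 2 ≤ ((t + T - 1).choose T : ℝ) := by
  have h1 : (T + 2).choose T ≤ (t + T - 1).choose T := Nat.choose_le_choose T (by omega)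
  have h2 : (T + 2).choose T = (T + 2).choose 2 := by
    rw [Nat.choose_symm_add]
  have h3 : ((T + 2).choose 2 : ℝ) ≤ ((t + T - 1).choose T : ℝ) := by
    rw [← h2]; exact_mod_cast h1
  refine le_trans ?_ h3
  rw [choose_two_real]
  have : (0 : ℝ) ≤ T := by positivity
  nlinarith

/-- The sum over small `t`. -/
lemma small_sum {n : ℕ} {C s : ℝ} (hC : 1 ≤ C) (hs : 0 < s)
    (h1 : ∀ t : ℕ, t ≤ n → pp (n - t) / pp n ≤ C * Real.exp (-s * t))
    (h2 : ∀ j : ℕ, pp (n + j) / pp n ≤ C * Real.exp (s * j)) {T : ℕ} (hT : 2 ≤ T)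
    (hTs : s * (T * T) ≤ 1) :
    ∑ t ∈ (Icc 1 n).filter (fun t => 2 ≤ t ∧ t ≤ T), (pp (n - t) / pp n) * (cc t n / pp n) ≤
      3 * (C ^ 2 * Real.exp 1) / T := by
  have hT0 : (0 : ℝ) < T := by
    have : 0 < T := by omega
    exact_mod_cast this
  have hpn := pp_pos n
  have hE := Real.exp_pos 1
  -- core bound
  have hcore : ∀ t : ℕ, 1 ≤ t → t ≤ T → cc t n / pp n * ((t + T - 1).choose T : ℝ) ≤
      C * Real.exp 1 := by
    intro t ht1 ht2
    have h3 := cc_push t n T ht1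
    have h4 : cc t n / pp n * ((t + T - 1).choose T : ℝ) ≤ pp (n + T * t) / pp n := by
      rw [div_mul_eq_mul_div]
      exact div_le_div_of_nonneg_right h3 hpn.le
    refine h4.trans ((h2 (T * t)).trans ?_)
    refine mul_le_mul_of_nonneg_left (Real.exp_le_exp.mpr ?_) (by linarith)
    push_cast
    have h5 : (t : ℝ) ≤ T := by exact_mod_cast ht2
    calc s * (T * t) ≤ s * (T * T) := by gcongr
      _ ≤ 1 := hTs
  have hR : ∀ t : ℕ, t ≤ n → pp (n - t) / pp n ≤ C := by
    intro t ht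
    refine (h1 t ht).trans ?_
    have : Real.exp (-s * t) ≤ 1 := by
      rw [Real.exp_le_one_iff]
      have : 0 ≤ s * t := by positivity
      linarith
    nlinarith
  have hterm : ∀ t ∈ (Icc 1 n).filter (fun t => 2 ≤ t ∧ t ≤ T),
      (pp (n - t) / pp n) * (cc t n / pp n) ≤
      (if t = 2 then C ^ 2 * Real.exp 1 / T else 0) + 2 * (C ^ 2 * Real.exp 1) / (T : ℝ) ^ 2 := by
    intro t ht
    rw [Finset.mem_filter, Finset.mem_Icc] at ht
    obtain ⟨⟨ht1, htn⟩, ht2, htT⟩ := ht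
    have hc := hcore t ht1 htT
    have hcn : 0 ≤ cc t n / pp n := div_nonneg (cc_nonneg t n) hpn.le
    have hb : cc t n / pp n ≤ (if t = 2 then C * Real.exp 1 / T else 0) +
        2 * (C * Real.exp 1) / (T : ℝ) ^ 2 := by
      split_ifs with h
      · subst h
        have e : ((2 + T - 1).choose T : ℝ) = (T : ℝ) + 1 := by
          rw [show 2 + T - 1 = T + 1 by omega, Nat.choose_succ_self_right]; push_cast; ring
        rw [e] at hc
        have h3 : cc 2 n / pp n ≤ C * Real.exp 1 / T := by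
          rw [le_div_iff₀ hT0]
          nlinarith
        have : 0 ≤ 2 * (C * Real.exp 1) / (T : ℝ) ^ 2 := by positivity
        linarith
      · rw [zero_add, le_div_iff₀ (by positivity)]
        have h3 := choose_lower (T := T) (t := t) (by omega) (by omega)
        nlinarith
    calc (pp (n - t) / pp n) * (cc t n / pp n) ≤ C * ((if t = 2 then C * Real.exp 1 / T else 0) +
          2 * (C * Real.exp 1) / (T : ℝ) ^ 2) := by
          refine mul_le_mul (hR t htn) hb hcn (by linarith)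
      _ = _ := by split_ifs <;> ring
  refine (Finset.sum_le_sum hterm).trans ?_
  rw [Finset.sum_add_distrib, Finset.sum_const, nsmul_eq_mul]
  have hcard : (((Icc 1 n).filter (fun t => 2 ≤ t ∧ t ≤ T)).card : ℝ) ≤ T := by
    have h3 : ((Icc 1 n).filter (fun t => 2 ≤ t ∧ t ≤ T)) ⊆ Icc 1 T := by
      intro t ht
      rw [Finset.mem_filter, Finset.mem_Icc] at ht
      rw [Finset.mem_Icc]; omega
    have h4 := Finset.card_le_card h3
    rw [Nat.card_Icc] at h4
    exact_mod_cast (by omega : ((Icc 1 n).filter (fun t => 2 ≤ t ∧ t ≤ T)).card ≤ T)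
  have hfirst : ∑ t ∈ (Icc 1 n).filter (fun t => 2 ≤ t ∧ t ≤ T),
      (if t = 2 then C ^ 2 * Real.exp 1 / T else 0) ≤ C ^ 2 * Real.exp 1 / T := by
    rw [Finset.sum_ite_eq' _ 2]
    split_ifs
    · exact le_rfl
    · positivity
  have hsecond : (((Icc 1 n).filter (fun t => 2 ≤ t ∧ t ≤ T)).card : ℝ) *
      (2 * (C ^ 2 * Real.exp 1) / (T : ℝ) ^ 2) ≤ 2 * (C ^ 2 * Real.exp 1) / T := by
    calc _ ≤ (T : ℝ) * (2 * (C ^ 2 * Real.exp 1) / (T : ℝ) ^ 2) := by gcongr
      _ = _ := by field_simp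
  calc _ ≤ C ^ 2 * Real.exp 1 / T + 2 * (C ^ 2 * Real.exp 1) / T := add_le_add hfirst hsecond
    _ = _ := by ring

/-- Bound for a single term, `w = 2`. -/
lemma term_le {n : ℕ} {C s : ℝ} (hC : 1 ≤ C)
    (h1 : ∀ t : ℕ, t ≤ n → pp (n - t) / pp n ≤ C * Real.exp (-s * t))
    (h2 : ∀ j : ℕ, pp (n + j) / pp n ≤ C * Real.exp (s * j)) {t : ℕ} (ht : 1 ≤ t) (htn : t ≤ n) :
    (pp (n - t) / pp n) * (cc t n / pp n) ≤ 2 * C ^ 2 * (Real.exp (s * t) / (t : ℝ) ^ 2) := by
  have hpn := pp_pos n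
  have ht0 : (0 : ℝ) < t := by exact_mod_cast ht
  have h3 := cc_push t n 2 ht
  have h4 : cc t n / pp n * ((t + 2 - 1).choose 2 : ℝ) ≤ C * Real.exp (s * (2 * t)) := by
    rw [div_mul_eq_mul_div]
    refine (div_le_div_of_nonneg_right h3 hpn.le).trans ?_
    have := h2 (2 * t)
    push_cast at this
    exact this
  have h5 : (t : ℝ) ^ 2 / 2 ≤ ((t + 2 - 1).choose 2 : ℝ) := by
    rw [show t + 2 - 1 = t + 1 by omega, Nat.cast_choose_two]
    push_cast
    nlinarith
  have hcn : 0 ≤ cc t n / pp n := div_nonneg (cc_nonneg t n) hpn.le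
  have h6 : cc t n / pp n ≤ 2 * C * Real.exp (s * (2 * t)) / (t : ℝ) ^ 2 := by
    rw [le_div_iff₀ (by positivity)]
    nlinarith
  calc (pp (n - t) / pp n) * (cc t n / pp n)
      ≤ (C * Real.exp (-s * t)) * (2 * C * Real.exp (s * (2 * t)) / (t : ℝ) ^ 2) :=
        mul_le_mul (h1 t htn) h6 hcn (by positivity)
    _ = 2 * C ^ 2 * ((Real.exp (-s * t) * Real.exp (s * (2 * t))) / (t : ℝ) ^ 2) := by ring
    _ = _ := by rw [← Real.exp_add]; ring_nf

set_option maxHeartbeats 2000000 in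
/-- Explicit bound in terms of the saddle point. -/
lemma main_bound {n : ℕ} (hn : 1 ≤ n) {C s : ℝ} (hC : 1 ≤ C) (hs : 0 < s)
    (hs2 : s / 2 ≤ 1 - Real.exp (-s))
    (h1 : ∀ t : ℕ, t ≤ n → pp (n - t) / pp n ≤ C * Real.exp (-s * t))
    (h2 : ∀ j : ℕ, pp (n + j) / pp n ≤ C * Real.exp (s * j)) (hN : 16 ≤ 1 / s) :
    zII n ≤ 400 * C ^ 2 / Real.log (1 / s) := by
  set N := 1 / s with hNdef
  have hN0 : 0 < N := by linarith
  have hsN : s * N = 1 := by rw [hNdef]; field_simp
  set Lam := Real.log N with hLam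
  have hLam1 : 1 ≤ Lam := by
    rw [hLam, Real.le_log_iff_exp_le hN0]
    have := Real.exp_one_lt_d9
    linarith
  have hpn := pp_pos n
  have hC0 : 0 < C := by linarith
  have hsqN : √N * √N = N := Real.mul_self_sqrt hN0.le
  have hsqN4 : 4 ≤ √N := by apply Real.le_sqrt_of_sq_le; linarith
  set T := ⌊√N⌋₊ with hTdef
  have hT1 : (T : ℝ) ≤ √N := Nat.floor_le (Real.sqrt_nonneg _)
  have hT2 : √N < T + 1 := Nat.lt_floor_add_one _
  have hT3 : √N / 2 ≤ T := by linarith
  have hT4 : 2 ≤ T := by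
    rw [hTdef]; apply Nat.le_floor; push_cast; linarith
  have hT0 : (0 : ℝ) < T := by
    have : 0 < T := by omega
    exact_mod_cast this
  have hTs : s * (T * T) ≤ 1 := by
    calc s * (T * T) ≤ s * (√N * √N) := by gcongr
      _ = 1 := by rw [hsqN, hsN]
  set q := √(√N) with hq
  have hq2 : q * q = √N := Real.mul_self_sqrt (Real.sqrt_nonneg _)
  have hqpos : 0 < q := Real.sqrt_pos.mpr (Real.sqrt_pos.mpr hN0)
  have hq1 : 1 ≤ q := by rw [hq]; apply Real.one_le_sqrt.mpr; linarith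
  -- log N ≤ 4 q
  have hlogq : Lam ≤ 4 * q := by
    have e1 : N = q ^ 4 := by
      have : q ^ 4 = (q * q) * (q * q) := by ring
      rw [this, hq2, hsqN]
    rw [hLam, e1, Real.log_pow]
    have := Real.log_le_sub_one_of_pos hqpos
    push_cast; linarith
  -- threshold
  set y := N * Real.log (N * Lam) with hy
  have hNL : 0 < N * Lam := by positivity
  have hsy : s * y = Real.log (N * Lam) := by rw [hy, ← mul_assoc, hsN, one_mul]
  have hexpy : Real.exp (s * y) = N * Lam := by rw [hsy, Real.exp_log hNL]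
  have hlogNL : Lam ≤ Real.log (N * Lam) := by
    rw [Real.log_mul hN0.ne' (by linarith)]
    have := Real.log_nonneg hLam1
    linarith
  have hyL : N * Lam ≤ y := by rw [hy]; gcongr
  have hy0 : 0 < y := lt_of_lt_of_le hNL hyL
  have hLN : Lam ≤ N := by
    have := Real.log_le_sub_one_of_pos hN0
    linarith
  -- the four pieces
  set F : ℕ → ℝ := fun t => (pp (n - t) / pp n) * (cc t n / pp n) with hF
  have hF0 : ∀ t, 0 ≤ F t := fun t =>
    mul_nonneg (div_nonneg (pp_pos _).le hpn.le) (div_nonneg (cc_nonneg t n) hpn.le)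
  have hsum := zII_le_sum (n := n)
  set S := Icc 1 n with hS
  set S1 := S.filter (fun t => 2 ≤ t ∧ t ≤ T) with hS1
  set S2 := S.filter (fun t => T < t ∧ (t : ℝ) ≤ y / 8) with hS2
  set S3 := S.filter (fun t : ℕ => y / 8 < (t : ℝ) ∧ (t : ℝ) ≤ y) with hS3
  set S4 := S.filter (fun t : ℕ => y < (t : ℝ)) with hS4
  have hsplit : ∑ t ∈ S, F t ≤ ∑ t ∈ S1, F t + ∑ t ∈ S2, F t + ∑ t ∈ S3, F t + ∑ t ∈ S4, F t := by
    have e1 : ∀ t ∈ S, F t ≤ (if 2 ≤ t ∧ t ≤ T then F t else 0) +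
        (if T < t ∧ (t : ℝ) ≤ y / 8 then F t else 0) +
        (if y / 8 < (t : ℝ) ∧ (t : ℝ) ≤ y then F t else 0) + (if y < (t : ℝ) then F t else 0) := by
      intro t ht
      rw [hS, Finset.mem_Icc] at ht
      have hFt := hF0 t
      have nn1 : 0 ≤ (if 2 ≤ t ∧ t ≤ T then F t else 0) := by split_ifs <;> simp [hFt]
      have nn2 : 0 ≤ (if T < t ∧ (t : ℝ) ≤ y / 8 then F t else 0) := by split_ifs <;> simp [hFt]
      have nn3 : 0 ≤ (if y / 8 < (t : ℝ) ∧ (t : ℝ) ≤ y then F t else 0) := by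
        split_ifs <;> simp [hFt]
      have nn4 : 0 ≤ (if y < (t : ℝ) then F t else 0) := by split_ifs <;> simp [hFt]
      rcases eq_or_ne t 1 with h | h
      · have : F t = 0 := by
          rw [hF, h]; simp only; rw [one_core hn]; simp
        linarith
      rcases le_or_gt t T with h3 | h3
      · rw [if_pos (show 2 ≤ t ∧ t ≤ T by omega)]; linarith
      rcases le_or_gt (t : ℝ) (y / 8) with h4 | h4
      · rw [if_pos (show T < t ∧ (t : ℝ) ≤ y / 8 from ⟨h3, h4⟩)]; linarith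
      rcases le_or_gt (t : ℝ) y with h5 | h5
      · rw [if_pos (show y / 8 < (t : ℝ) ∧ (t : ℝ) ≤ y from ⟨h4, h5⟩)]; linarith
      · rw [if_pos h5]; linarith
    refine (Finset.sum_le_sum e1).trans (le_of_eq ?_)
    rw [Finset.sum_add_distrib, Finset.sum_add_distrib, Finset.sum_add_distrib,
      ← Finset.sum_filter, ← Finset.sum_filter, ← Finset.sum_filter, ← Finset.sum_filter]
  have hlogsq : Lam ≤ 2 * √N := by
    have : q ≤ q * q := by nlinarith
    nlinarith
  -- piece 1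
  have b1 : ∑ t ∈ S1, F t ≤ 40 * C ^ 2 / Lam := by
    refine (small_sum hC hs h1 h2 hT4 hTs).trans ?_
    rw [div_le_div_iff₀ hT0 (by linarith)]
    have he := Real.exp_one_lt_d9
    have h3 : 3 * (C ^ 2 * Real.exp 1) * Lam ≤ 3 * (C ^ 2 * 3) * Lam := by
      gcongr; linarith
    have h4 : Lam ≤ 4 * T := by linarith
    have h5 : 3 * (C ^ 2 * 3) * Lam ≤ 3 * (C ^ 2 * 3) * (4 * T) := by gcongr
    nlinarith [mul_pos (pow_pos hC0 2) hT0]
  -- piece 2
  have b2 : ∑ t ∈ S2, F t ≤ 16 * C ^ 2 / Lam := by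
    have h3 : ∀ t ∈ S2, F t ≤ 2 * C ^ 2 * q * (1 / (t : ℝ) ^ 2) := by
      intro t ht
      rw [hS2, Finset.mem_filter, hS, Finset.mem_Icc] at ht
      obtain ⟨⟨ht1, htn⟩, htT, hty⟩ := ht
      refine (term_le hC h1 h2 ht1 htn).trans ?_
      have h4 : Real.exp (s * t) ≤ q := by
        have h5 : s * t ≤ s * y / 8 := by
          calc s * t ≤ s * (y / 8) := by gcongr
            _ = s * y / 8 := by ring
        rw [hsy] at h5
        have h6 : Real.log (N * Lam) ≤ 8 * Real.log q := by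
          have e1 : N * N = q ^ 8 := by
            have : q ^ 8 = ((q * q) * (q * q)) * ((q * q) * (q * q)) := by ring
            rw [this, hq2, hsqN]
          calc Real.log (N * Lam) ≤ Real.log (N * N) := by
                apply Real.log_le_log hNL; gcongr
            _ = 8 * Real.log q := by rw [e1, Real.log_pow]; push_cast; ring
        calc Real.exp (s * t) ≤ Real.exp (Real.log q) := by
              apply Real.exp_le_exp.mpr; linarith
          _ = q := Real.exp_log hqpos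
      calc 2 * C ^ 2 * (Real.exp (s * t) / (t : ℝ) ^ 2) ≤ 2 * C ^ 2 * (q / (t : ℝ) ^ 2) := by
            gcongr
        _ = _ := by ring
    refine (Finset.sum_le_sum h3).trans ?_
    rw [← Finset.mul_sum]
    have h4 := sum_inv_sq_le (T := T) (by omega) S2 (fun t ht => by
      rw [hS2, Finset.mem_filter] at ht; exact ht.2.1)
    calc 2 * C ^ 2 * q * ∑ t ∈ S2, 1 / (t : ℝ) ^ 2 ≤ 2 * C ^ 2 * q * (1 / T) := by gcongr
      _ ≤ 2 * C ^ 2 * q * (1 / (√N / 2)) := by gcongr
      _ = 4 * C ^ 2 / q := by rw [← hq2]; field_simp; ring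
      _ ≤ 16 * C ^ 2 / Lam := by
        rw [div_le_div_iff₀ hqpos (by linarith)]
        nlinarith [pow_pos hC0 2]
  -- piece 3
  have b3 : ∑ t ∈ S3, F t ≤ 256 * C ^ 2 / Lam := by
    have h3 : ∀ t ∈ S3, F t ≤ 2 * C ^ 2 * (64 / y ^ 2) * Real.exp (s * t) := by
      intro t ht
      rw [hS3, Finset.mem_filter, hS, Finset.mem_Icc] at ht
      obtain ⟨⟨ht1, htn⟩, hty, _⟩ := ht
      refine (term_le hC h1 h2 ht1 htn).trans ?_
      have ht0 : (0 : ℝ) < t := by exact_mod_cast ht1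
      have h4 : 1 / (t : ℝ) ^ 2 ≤ 64 / y ^ 2 := by
        rw [div_le_div_iff₀ (by positivity) (by positivity)]
        nlinarith
      calc 2 * C ^ 2 * (Real.exp (s * t) / (t : ℝ) ^ 2)
          = 2 * C ^ 2 * (1 / (t : ℝ) ^ 2) * Real.exp (s * t) := by ring
        _ ≤ _ := by gcongr
    refine (Finset.sum_le_sum h3).trans ?_
    rw [← Finset.mul_sum]
    have h4 := sum_head_le hs S3 (y := y) (fun t ht => by
      rw [hS3, Finset.mem_filter] at ht; exact ht.2.2)
    rw [hexpy] at h4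
    have h5 : N * Lam / (1 - Real.exp (-s)) ≤ N * Lam * (2 * N) := by
      rw [div_le_iff₀ (by linarith)]
      have h6 : 1 ≤ 2 * N * (1 - Real.exp (-s)) := by
        calc (1 : ℝ) = 2 * N * (s / 2) := by rw [← hsN]; ring
          _ ≤ _ := by gcongr
      calc N * Lam = N * Lam * 1 := (mul_one _).symm
        _ ≤ N * Lam * (2 * N * (1 - Real.exp (-s))) := by gcongr
        _ = _ := by ring
    calc 2 * C ^ 2 * (64 / y ^ 2) * ∑ t ∈ S3, Real.exp (s * t)
        ≤ 2 * C ^ 2 * (64 / y ^ 2) * (N * Lam * (2 * N)) := by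
          gcongr
          exact h4.trans h5
      _ ≤ 2 * C ^ 2 * (64 / (N * Lam) ^ 2) * (N * Lam * (2 * N)) := by gcongr
      _ = 256 * C ^ 2 / Lam := by
          have : Lam ≠ 0 := by linarith
          field_simp; ring
  -- piece 4
  have b4 : ∑ t ∈ S4, F t ≤ 2 * C ^ 2 / Lam := by
    have h3 : ∀ t ∈ S4, F t ≤ C * Real.exp (-s * t) := by
      intro t ht
      rw [hS4, Finset.mem_filter, hS, Finset.mem_Icc] at ht
      obtain ⟨⟨ht1, htn⟩, _⟩ := ht
      have h4 : cc t n / pp n ≤ 1 := by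
        rw [div_le_one hpn]; exact cc_le t n
      calc F t ≤ (C * Real.exp (-s * t)) * 1 :=
            mul_le_mul (h1 t htn) h4 (div_nonneg (cc_nonneg t n) hpn.le) (by positivity)
        _ = _ := mul_one _
    refine (Finset.sum_le_sum h3).trans ?_
    rw [← Finset.mul_sum]
    have h4 := sum_tail_le hs hy0.le S4 (fun t ht => by
      rw [hS4, Finset.mem_filter] at ht; exact ht.2)
    have e1 : Real.exp (-s * y) = 1 / (N * Lam) := by
      rw [neg_mul, Real.exp_neg, hexpy, one_div]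
    rw [e1] at h4
    have h5 : 1 / (N * Lam) / (1 - Real.exp (-s)) ≤ 2 / Lam := by
      rw [div_le_iff₀ (by linarith)]
      have h6 : 1 ≤ 2 * N * (1 - Real.exp (-s)) := by
        calc (1 : ℝ) = 2 * N * (s / 2) := by rw [← hsN]; ring
          _ ≤ _ := by gcongr
      have hLam0 : 0 < Lam := by linarith
      rw [div_le_iff₀ hNL]
      calc (1 : ℝ) ≤ 2 * N * (1 - Real.exp (-s)) := h6
        _ = 2 / Lam * (1 - Real.exp (-s)) * (N * Lam) := by field_simp
    calc C * ∑ t ∈ S4, Real.exp (-s * t) ≤ C * (2 / Lam) := by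
          gcongr
          exact h4.trans h5
      _ ≤ C * C * (2 / Lam) := by
          have : C ≤ C * C := by nlinarith
          gcongr
      _ = _ := by ring
  have hLam0 : 0 < Lam := by linarith
  calc zII n ≤ ∑ t ∈ S, F t := hsum
    _ ≤ _ := hsplit
    _ ≤ 40 * C ^ 2 / Lam + 16 * C ^ 2 / Lam + 256 * C ^ 2 / Lam + 2 * C ^ 2 / Lam := by
        gcongr
    _ = 314 * C ^ 2 / Lam := by ring
    _ ≤ 400 * C ^ 2 / Lam := by gcongr; norm_num

/-- The density of type II zeros is `O(1 / log n)`. -/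
theorem zII_le_log : ∃ C : ℝ, 0 < C ∧ ∀ n : ℕ, 2 ≤ n → zII n ≤ C / Real.log n := by
  obtain ⟨C, hC, n₀, h⟩ := saddle_exp
  set n₁ := max n₀ 100000 with hn₁
  refine ⟨max (1600 * C ^ 2) (Real.log n₁), lt_of_lt_of_le (by positivity) (le_max_left _ _),
    fun n hn => ?_⟩
  have hn0 : (0 : ℝ) < n := by
    have : 0 < n := by omega
    exact_mod_cast this
  have hlog : 0 < Real.log n := Real.log_pos (by exact_mod_cast (by omega : 1 < n))
  rcases le_or_gt n₁ n with h1 | h1
  · have h2 : n₀ ≤ n := (le_max_left _ _).trans h1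
    have h3 : 100000 ≤ n := (le_max_right _ _).trans h1
    have h3' : (100000 : ℝ) ≤ n := by exact_mod_cast h3
    obtain ⟨s, hs, hb, hs2, hr1, hr2⟩ := h n h2
    have hsn : 144 ≤ √(n : ℝ) := by
      apply Real.le_sqrt_of_sq_le; linarith
    have hsn2 : √(n : ℝ) * √(n : ℝ) = n := Real.mul_self_sqrt hn0.le
    have hN : 16 ≤ 1 / s := by linarith
    refine (main_bound (by omega) hC hs hs2 hr1 hr2 hN).trans ?_
    have h4 : Real.log n / 4 ≤ Real.log (1 / s) := by
      have h5 : √(√(n : ℝ)) ≤ 1 / s := by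
        refine le_trans ?_ hb
        have h6 : 12 ≤ √(√(n : ℝ)) := by apply Real.le_sqrt_of_sq_le; linarith
        have h7 : √(√(n : ℝ)) * √(√(n : ℝ)) = √(n : ℝ) := Real.mul_self_sqrt (Real.sqrt_nonneg _)
        have h8 : √(√(n : ℝ)) ≤ √(n : ℝ) / 3 := by nlinarith
        exact h8
      have h6 : Real.log (√(√(n : ℝ))) = Real.log n / 4 := by
        rw [Real.log_sqrt (Real.sqrt_nonneg _), Real.log_sqrt hn0.le]; ring
      rw [← h6]
      exact Real.log_le_log (Real.sqrt_pos.mpr (by linarith)) h5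
    calc 400 * C ^ 2 / Real.log (1 / s) ≤ 400 * C ^ 2 / (Real.log n / 4) := by gcongr
      _ = 1600 * C ^ 2 / Real.log n := by field_simp; ring
      _ ≤ _ := by gcongr; exact le_max_left _ _
  · refine (zII_le_one n).trans ?_
    rw [le_div_iff₀ hlog, one_mul]
    refine le_trans ?_ (le_max_right _ _)
    exact Real.log_le_log hn0 (by exact_mod_cast h1.le)

end MP024b77
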